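import Pool.Statements.S00485
import Pool.Agent.DAE.Assembly
import Pool.Agent.DAE.TheoremA
import Pool.Agent.DAE.S.Final
import Pool.Agent.DaeB.Final

set_option autoImplicit false
open Pool Pool.MP_dae5d3_ag

namespace Pool.Agent.S00485

/-- For every d ≥ 2 and every polynomial automorphism of ℂ^d, the limit of deg(fⁿ)^(1/n) is an algebraic integer λ ≥ 1 of degree at most d−1 whose complex conjugates all have modulus at most λ. -/
theorem result :
    ∀ (d : ℕ), 2 ≤ d →
      ∀ φ : MvPolynomial (Fin d) ℂ ≃ₐ[ℂ] MvPolynomial (Fin d) ℂ,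
        ∃ lam : ℝ,
          Filter.Tendsto
            (fun n : ℕ =>
              ((Finset.univ.sup (fun i : Fin d => ((φ ^ n) (MvPolynomial.X i)).totalDegree) : ℕ) : ℝ)
                ^ ((1 : ℝ) / (n : ℝ)))
            Filter.atTop (nhds lam) ∧
          1 ≤ lam ∧
          IsIntegral ℤ lam ∧
          (minpoly ℤ lam).natDegree ≤ d - 1 ∧
          ∀ μ : ℂ, Polynomial.aeval μ (minpoly ℤ lam) = 0 → ‖μ‖ ≤ lam := by
  exact Pool.Agent.DAE.frozen_of
    (fun d _ _ => Pool.Agent.DAE.theoremA_of_cells (Pool.Agent.DAE.cellsStatement d))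
    (fun d _ _ => Pool.Agent.DaeB.theoremB d)

end Pool.Agent.S00485
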