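import Pool.Statements.S01183
import Pool.Agent.CZS.Table

set_option autoImplicit false
open Pool Pool.MP_370e98_al

namespace Pool.Agent.S01183

/-- Some algorithm decides, given an associative Cayley table of a finite semigroup, whether it is completely 0-simple with Abelian maximal subgroups and its identities follow from finitely many of them. -/
theorem result :
  ∃ P : ℕ × List (List ℕ) → Prop, ComputablePred P ∧
    ∀ (n : ℕ) (op : Fin n → Fin n → Fin n),
      (∀ a b c : Fin n, op (op a b) c = op a (op b c)) →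
      (P (n, List.ofFn (fun i : Fin n => List.ofFn (fun j : Fin n => ((op i j : Fin n) : ℕ)))) ↔
        ((∃ z : Fin n, (∀ x : Fin n, op z x = z ∧ op x z = z) ∧
            (∃ x y : Fin n, op x y ≠ z) ∧
            (∀ I : Set (Fin n), z ∈ I → (∀ x ∈ I, ∀ s : Fin n, op s x ∈ I ∧ op x s ∈ I) →
                I = {z} ∨ I = Set.univ) ∧
            (∃ e : Fin n, e ≠ z ∧ op e e = e ∧
                ∀ f : Fin n, f ≠ z → op f f = f → op e f = f → op f e = f → f = e) ∧
            (∀ e : Fin n, e ≠ z → op e e = e → ∀ a b : Fin n,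
                op (op (op e a) e) (op (op e b) e) = op (op (op e b) e) (op (op e a) e))) ∧
         (∃ B : Finset ((ℕ × List ℕ) × (ℕ × List ℕ)),
            (∀ p ∈ B, ∀ f : ℕ → Fin n,
                p.1.2.foldl (fun a y => op a (f y)) (f p.1.1) =
                  p.2.2.foldl (fun a y => op a (f y)) (f p.2.1)) ∧
            ∀ u v : ℕ × List ℕ,
              (∀ f : ℕ → Fin n,
                u.2.foldl (fun a y => op a (f y)) (f u.1) =
                  v.2.foldl (fun a y => op a (f y)) (f v.1)) →
              ∀ (T : Type) [Semigroup T],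
                (∀ p ∈ B, ∀ g : ℕ → T,
                  p.1.2.foldl (fun a y => a * g y) (g p.1.1) =
                    p.2.2.foldl (fun a y => a * g y) (g p.2.1)) →
                ∀ g : ℕ → T,
                  u.2.foldl (fun a y => a * g y) (g u.1) =
                    v.2.foldl (fun a y => a * g y) (g v.1)))) := by
  refine ⟨fun a => Pool.Agent.CZS.Crit a.1 (Pool.Agent.CZS.top a.2),
    Pool.Agent.CZS.crit_computable, ?_⟩
  intro n op hassoc
  have h1 := Pool.Agent.CZS.crit_iff_critS n op _ (Pool.Agent.CZS.top_ofFn n op)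
  refine h1.trans ?_
  constructor
  · rintro ⟨z, hb, hc⟩
    exact ⟨⟨z, hb.1, hb.2.1, (Pool.Agent.CZS.ideals_iff op hassoc z hb.1).2 hb.2.2.1,
      hb.2.2.2.1, hb.2.2.2.2⟩, (Pool.Agent.CZS.FB_iff_crit n op hassoc z hb).2 hc⟩
  · rintro ⟨⟨z, h1, h2, h3, h4, h5⟩, hfb⟩
    have hb : Pool.Agent.CZS.Basic op z :=
      ⟨h1, h2, (Pool.Agent.CZS.ideals_iff op hassoc z h1).1 h3, h4, h5⟩
    exact ⟨z, hb, (Pool.Agent.CZS.FB_iff_crit n op hassoc z hb).1 hfb⟩

end Pool.Agent.S01183
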