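import Pool.Statements.S01417
import Pool.Agent.LO.Final

set_option autoImplicit false
open Pool Pool.MP_4f3965_al

namespace Pool.Agent.S01417

/-- There is a nontrivial group with a left-invariant total order, generated by a finite set S, in which every element g ≠ 1 is distorted: the word length of g^n over S and its inverses, divided by n, tends to 0. -/
theorem result :
    ∃ (G : Type) (_ : Group G), Nontrivial G ∧
      (∃ lt : G → G → Prop,
        (∀ a : G, ¬ lt a a) ∧
        (∀ a b c : G, lt a b → lt b c → lt a c) ∧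
        (∀ a b : G, a ≠ b → lt a b ∨ lt b a) ∧
        (∀ f g h : G, lt g h → lt (f * g) (f * h))) ∧
      ∃ S : Finset G, Subgroup.closure (S : Set G) = ⊤ ∧
        ∀ g : G, g ≠ 1 → ∀ ε : ℝ, 0 < ε → ∃ N : ℕ, ∀ n : ℕ, N ≤ n →
          ∃ l : List G, (l.length : ℝ) ≤ ε * (n : ℝ) ∧
            (∀ x ∈ l, x ∈ S ∨ x⁻¹ ∈ S) ∧ l.prod = g ^ n :=
  Pool.Agent.LO.main_result

end Pool.Agent.S01417
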