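import Pool.Statements.S01786
import Pool.Agent.AutGeo.Main

set_option autoImplicit false
open Pool Pool.MP_69f220_al

namespace Pool.Agent.S01786

/-- The negation of the preceding statement: Every finitely generated group is automatic (regular language onto G with the fellow traveller property) exactly when, for some finite generating set X, the words over X and inverses that are shortest for their value form a regular language. -/
theorem result :
    ¬ (∀ (G : Type) [Group G], Group.FG G →
      ((∃ X : Finset G, Subgroup.closure (X : Set G) = ⊤ ∧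
          ∃ σ : Type, ∃ _ : Fintype σ, ∃ M : DFA ({x // x ∈ X} × Bool) σ,
            (∀ g : G, ∃ w : List ({x // x ∈ X} × Bool), M.eval w ∈ M.accept ∧
              (w.map (fun p : {x // x ∈ X} × Bool => if p.2 = true then p.1.1 else p.1.1⁻¹)).prod = g) ∧
            ∃ K : ℕ, ∀ u v : List ({x // x ∈ X} × Bool),
              M.eval u ∈ M.accept → M.eval v ∈ M.accept →
              (∃ z : List ({x // x ∈ X} × Bool), z.length ≤ 1 ∧
                (u.map (fun p : {x // x ∈ X} × Bool => if p.2 = true then p.1.1 else p.1.1⁻¹)).prod *
                (z.map (fun p : {x // x ∈ X} × Bool => if p.2 = true then p.1.1 else p.1.1⁻¹)).prod =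
                (v.map (fun p : {x // x ∈ X} × Bool => if p.2 = true then p.1.1 else p.1.1⁻¹)).prod) →
              ∀ t : ℕ, ∃ z : List ({x // x ∈ X} × Bool), z.length ≤ K ∧
                ((u.take t).map (fun p : {x // x ∈ X} × Bool => if p.2 = true then p.1.1 else p.1.1⁻¹)).prod *
                (z.map (fun p : {x // x ∈ X} × Bool => if p.2 = true then p.1.1 else p.1.1⁻¹)).prod =
                ((v.take t).map (fun p : {x // x ∈ X} × Bool => if p.2 = true then p.1.1 else p.1.1⁻¹)).prod)
        ↔
       (∃ X : Finset G, Subgroup.closure (X : Set G) = ⊤ ∧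
          ∃ σ : Type, ∃ _ : Fintype σ, ∃ M : DFA ({x // x ∈ X} × Bool) σ,
            ∀ w : List ({x // x ∈ X} × Bool), M.eval w ∈ M.accept ↔
              ∀ v : List ({x // x ∈ X} × Bool),
                (v.map (fun p : {x // x ∈ X} × Bool => if p.2 = true then p.1.1 else p.1.1⁻¹)).prod =
                (w.map (fun p : {x // x ∈ X} × Bool => if p.2 = true then p.1.1 else p.1.1⁻¹)).prod →
                w.length ≤ v.length))) := by
  intro h
  exact AutGeo.main (h AutGeo.GG AutGeo.GG_fg)

end Pool.Agent.S01786
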