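import Pool.Statements.S02067
import Pool.Agent.FBalanced.Main

set_option autoImplicit false
open scoped Pointwise Topology
open Pool Pool.MP_7ead4a_al

namespace Pool.Agent.S02067

/-- Every topological group in which, for every subset X and identity neighbourhood U, some identity neighbourhood V has VX inside XU, has every identity neighbourhood containing a conjugation-invariant identity neighbourhood. -/
theorem result :
    ∀ (G : Type) [Group G] [TopologicalSpace G] [IsTopologicalGroup G],
      (∀ X : Set G, ∀ U ∈ 𝓝 (1 : G), ∃ V ∈ 𝓝 (1 : G), V * X ⊆ X * U) →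
      ∀ U ∈ 𝓝 (1 : G), ∃ V ∈ 𝓝 (1 : G), V ⊆ U ∧
        ∀ g x : G, x ∈ V → g * x * g⁻¹ ∈ V := by
  intro G _ _ _ hF U hU
  exact Pool.Agent.FBalanced.balanced_of_fbalanced G hF U hU

end Pool.Agent.S02067
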