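import Pool.Statements.S02083
import Pool.Agent.RC84.Main

set_option autoImplicit false
open Pool Pool.MP_8085d2_al

namespace Pool.Agent.S02083

/-- There is a torsion-free group, hyperbolic via a finite generating set whose word metric satisfies the four-point condition, with numbers m, n, 3m < 2n, so that rational cohomological dimension is at most m and integral cohomological dimension is at least n. -/
theorem result :
  ∃ (G : Type) (inst : Group G),
    (∀ g : G, g ≠ 1 → ¬ IsOfFinOrder g) ∧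
    (∃ (S : Finset G) (d : G → G → ℕ) (δ : ℕ),
      Subgroup.closure (S : Set G) = ⊤ ∧
      (∀ g h : G, d g h = sInf {n : ℕ | ∃ l : List G, l.length = n ∧
          (∀ s ∈ l, s ∈ S ∨ s⁻¹ ∈ S) ∧ l.prod = g⁻¹ * h}) ∧
      (∀ x y z w : G,
        min ((d x w : ℤ) + (d y w : ℤ) - (d x y : ℤ))
            ((d y w : ℤ) + (d z w : ℤ) - (d y z : ℤ)) - 2 * (δ : ℤ)
          ≤ (d x w : ℤ) + (d z w : ℤ) - (d x z : ℤ))) ∧
    ∃ m n : ℕ, 3 * m < 2 * n ∧
      (∀ (A : Rep ℚ G) (k : ℕ), m < k → Subsingleton (groupCohomology A k)) ∧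
      (∃ (A : Rep ℤ G) (k : ℕ), n ≤ k ∧ Nontrivial (groupCohomology A k)) := by
  exact Pool.Agent.RC84.main

end Pool.Agent.S02083
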