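import Pool.Statements.S03422
import Pool.Agent.MaxSub.Main

set_option autoImplicit false
open Pool Pool.MP_e8da98_al

namespace Pool.Agent.S03422

/-- The negation of the preceding statement: For every prime p and every finitely generated, residually finite group in which every element has p-power order, every maximal subgroup is normal. -/
theorem result :
    ¬ (∀ (p : ℕ), p.Prime → ∀ (G : Type) [Group G], Group.FG G → IsPGroup p G →
      (∀ g : G, g ≠ 1 → ∃ N : Subgroup G, N.Normal ∧ N.index ≠ 0 ∧ g ∉ N) →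
      ∀ H : Subgroup G, IsCoatom H → H.Normal) := by
  intro hall
  obtain ⟨K, _, _, _, w, h0, h1⟩ := Pool.Agent.MaxSub.exists_field
  obtain ⟨M, hM, hHM⟩ := Pool.Agent.MaxSub.exists_coatom (Pool.Agent.MaxSub.W_fg w)
    (Pool.Agent.MaxSub.H w) (Pool.Agent.MaxSub.H_ne_top w)
  exact Pool.Agent.MaxSub.not_normal w h0 h1 M hM.1 hHM
    (hall 2 Nat.prime_two (Pool.Agent.MaxSub.W w) (Pool.Agent.MaxSub.W_fg w)
      (Pool.Agent.MaxSub.W_pgroup w) (Pool.Agent.MaxSub.W_rf w) M hM)

end Pool.Agent.S03422
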