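import Pool.Statements.S04168
import Pool.Agent.MP2b057c.Final
-- import your own Pool.Agent.* helpers here

set_option autoImplicit false
open Pool Pool.MP_2b057c_an

namespace Pool.Agent.S04168

/-- The negation of the preceding statement: There is a composition-preserving bijection between the shift-commuting homeomorphisms of {0,1}^Z and those of {0,1,2}^Z, i.e. the automorphism groups of the full 2-shift and full 3-shift are isomorphic. -/
theorem result :
    ¬ (∃ Φ : {f : (ℤ → Fin 2) ≃ₜ (ℤ → Fin 2) //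
            ∀ x : ℤ → Fin 2, f (fun i => x (i + 1)) = fun i => f x (i + 1)} ≃
          {g : (ℤ → Fin 3) ≃ₜ (ℤ → Fin 3) //
            ∀ x : ℤ → Fin 3, g (fun i => x (i + 1)) = fun i => g x (i + 1)},
      ∀ a b c : {f : (ℤ → Fin 2) ≃ₜ (ℤ → Fin 2) //
            ∀ x : ℤ → Fin 2, f (fun i => x (i + 1)) = fun i => f x (i + 1)},
        (∀ x : ℤ → Fin 2, c.1 x = a.1 (b.1 x)) →
          ∀ y : ℤ → Fin 3, (Φ c).1 y = (Φ a).1 ((Φ b).1 y)) := by
  exact FShift.final_assembly

end Pool.Agent.S04168
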