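import Pool.Statements.S04175
import Pool.Agent.MOM.Dyn.Fin5

set_option autoImplicit false
open Pool Pool.MP_2b7f8f_an

namespace Pool.Agent.S04175

/-- For every cocompact lattice of PSL2(R) and t0≠0, the time-t0 horocycle map has strong MOMO: for every block sequence with gaps tending to infinity, all points y_k and continuous f, the averaged block sums of f(T^(n-b_k) y_k)·μ(n) tend to 0. -/
theorem result :
    ∀ (Γ : Subgroup (Matrix.SpecialLinearGroup (Fin 2) ℝ)),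
      DiscreteTopology Γ →
      (∀ z : Matrix.SpecialLinearGroup (Fin 2) ℝ,
          (z : Matrix (Fin 2) (Fin 2) ℝ) = -1 → z ∈ Γ) →
      CompactSpace (Matrix.SpecialLinearGroup (Fin 2) ℝ ⧸ Γ) →
      ∀ (t₀ : ℝ), t₀ ≠ 0 →
      ∀ u : Matrix.SpecialLinearGroup (Fin 2) ℝ,
        (u : Matrix (Fin 2) (Fin 2) ℝ) = !![1, t₀; 0, 1] →
      ∀ (b : ℕ → ℕ), b 0 = 0 → StrictMono b →
        Filter.Tendsto (fun k : ℕ => b (k + 1) - b k) Filter.atTop Filter.atTop →
      ∀ (y : ℕ → Matrix.SpecialLinearGroup (Fin 2) ℝ ⧸ Γ),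
      ∀ (f : Matrix.SpecialLinearGroup (Fin 2) ℝ ⧸ Γ → ℂ), Continuous f →
        Filter.Tendsto
          (fun K : ℕ => (1 / (b K : ℝ)) * ∑ k ∈ Finset.range K,
            ‖∑ n ∈ Finset.Ico (b k) (b (k + 1)),
                f ((u ^ (n - b k)) • y k) * ((ArithmeticFunction.moebius n : ℤ) : ℂ)‖)
          Filter.atTop (nhds 0) := by
  intro Γ hΓ hneg hcpt t₀ ht u hu b hb0 hb hg y f hf
  exact Pool.Agent.MOM.Dyn.final Γ hΓ hneg hcpt t₀ ht u hu b hb0 hb hg y f hf

end Pool.Agent.S04175
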