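import Pool.Statements.S04282
import Pool.Agent.Godefroy.Rho
import Pool.Agent.Godefroy.Space
import Pool.Agent.Godefroy.Basis
import Pool.Agent.Godefroy.Functionals
import Pool.Agent.Godefroy.Scattered
import Pool.Agent.Godefroy.Tight

set_option autoImplicit false
open Pool Pool.MP_32963f_an

namespace Pool.Agent.S04282

/-!
The answer to Godefroy's question for spaces `C(K)`, `K` scattered, is negative.

* `Godefroy.exists_coherent`: on `ω₁` there are finite sets `F_n(α)`, increasing in `n`, with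
  maximum `α`, union `[0,α]`, at most `n + 1` elements, and with `F_n(β) = F_n(α) ∩ [0,β]` for
  `β ∈ F_n(α)` (Todorcevic's function `ϱ`).
* `RhoSystem.K`: the closed set of all `A ⊆ ω₁` such that for `β ∈ A` the trace `A ∩ [0,β]` is one of
  the `F_n(β)` or `[0,β]`. It consists of the sets `F_n(α)`, the empty set and the initial
  segments of `ω₁` (the compact space of Hajek, Russo, Somaglia and Todorcevic).
  `RhoSystem.scattered`: it is scattered. `Godefroy.not_eberlein`: it is not Eberlein (Kaplansky).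
* `C(K)` has a 1-norming Markushevich basis: the vectors are `1_{V_G}`, where `V_G` is the set of
  the points of `K` with the finite set `G` as an initial segment, and `π_γ = 1_{γ ∈ A}` for
  infinite `γ < ω₁`; the functionals are `ψ_γ = δ_{[0,γ]} - δ_{[0,γ)}` and
  `φ_G = δ_G - δ_{G minus max G} - ψ_{max G}`, so that the span of the functionals contains the evaluations
  at all finite points of `K`, and these are dense.
-/

open Set Pool.Agent.Godefroy Pool.Agent.Godefroy.RhoSystem

/-- The well-ordered set `ω₁`. -/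
abbrev W : Type := (Cardinal.aleph 1).ord.ToType

theorem countable_Iio (a : W) : (Iio a).Countable := by
  have h := Cardinal.mk_Iio_toType_ord_lt (c := Cardinal.aleph 1) a
  exact Cardinal.le_aleph0_iff_set_countable.1 (Cardinal.lt_aleph_one_iff.1 h)

theorem exists_gt_countable (C : Set W) (hC : C.Countable) : ∃ δ : W, ∀ γ ∈ C, γ < δ := by
  by_contra hcon
  push Not at hcon
  have huniv : (univ : Set W) ⊆ ⋃ γ ∈ C, Iic γ := by
    intro δ _
    obtain ⟨γ, hγ, hle⟩ := hcon δ
    exact mem_iUnion₂.2 ⟨γ, hγ, hle⟩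
  have hcount : (univ : Set W).Countable := by
    refine (hC.biUnion fun γ _ => ?_).mono huniv
    rw [← Iio_insert]
    exact (countable_Iio γ).insert γ
  have h1 : Cardinal.mk W ≤ Cardinal.aleph0 :=
    Cardinal.mk_le_aleph0_iff.2 (countable_univ_iff.1 hcount)
  rw [Cardinal.mk_toType, Cardinal.card_ord] at h1
  exact absurd h1 (not_le.2 Cardinal.aleph0_lt_aleph_one)

/-- The negation of the preceding statement: For every scattered compact Hausdorff space K: if real C(K) has a norming Markushevich basis, then K is homeomorphic to a weakly compact subset of some real Banach space, i.e. K is Eberlein compact. -/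
theorem result :
    ¬ (∀ (K : Type) [TopologicalSpace K] [CompactSpace K] [T2Space K],
      (∀ s : Set K, s.Nonempty → ∃ x ∈ s, ∃ U : Set K, IsOpen U ∧ U ∩ s = {x}) →
      (∃ (I : Type) (x : I → C(K, ℝ)) (f : I → (C(K, ℝ) →L[ℝ] ℝ)),
        (∀ i j : I, i = j → f i (x j) = 1) ∧
        (∀ i j : I, i ≠ j → f i (x j) = 0) ∧
        Dense (Submodule.span ℝ (Set.range x) : Set C(K, ℝ)) ∧
        (∀ y : C(K, ℝ), (∀ i, f i y = 0) → y = 0) ∧
        ∃ c : ℝ, 0 < c ∧ ∀ y : C(K, ℝ),
          ∃ g ∈ Submodule.span ℝ (Set.range f), ‖g‖ ≤ 1 ∧ c * ‖y‖ ≤ |g y|) →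
      ∃ (E : Type) (_ : NormedAddCommGroup E) (_ : NormedSpace ℝ E) (_ : CompleteSpace E),
        ∃ S : Set (WeakSpace ℝ E), IsCompact S ∧ Nonempty (K ≃ₜ S)) := by
  intro H
  obtain ⟨F, hF⟩ := exists_coherent (Ω := W) countable_Iio
  let R : RhoSystem W := ⟨F, hF⟩
  obtain ⟨E, i1, i2, i3, S, -, ⟨h⟩⟩ := H R.K scattered
    ⟨R.Idx, R.vec, R.fnl, fun i j hij => hij ▸ biorth_eq i, biorth_ne, dense_S, total,
      1 / 2, by norm_num, norming⟩
  refine not_eberlein (Ω := W) (fun γ => R.pt (Iio γ) (inK_Iio γ))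
    (R.pt univ (inK_lower isLowerSet_univ)) ?_ ?_ E S h
  · intro V hV hz
    obtain ⟨T, hT⟩ := exists_finset_of_isOpen hV hz
    obtain ⟨δ, hδ⟩ := exists_gt_countable (T : Set W) T.countable_toSet
    refine ⟨δ, hT _ fun ξ hξ => ?_⟩
    rw [pt_set, pt_set]
    exact ⟨fun _ => mem_univ _, fun _ => hδ ξ hξ⟩
  · intro C hC
    obtain ⟨δ, hδ⟩ := exists_gt_countable C hC
    refine ⟨{x : R.K | δ ∈ x.set}, (isClopen_mem δ).isOpen, ?_, fun γ hγ hmem => ?_⟩
    · show δ ∈ (R.pt univ (inK_lower isLowerSet_univ)).set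
      rw [pt_set]; exact mem_univ _
    · have h1 : δ ∈ (R.pt (Iio γ) (inK_Iio γ)).set := hmem
      rw [pt_set] at h1
      exact absurd (hδ γ hγ) (not_lt.2 (le_of_lt h1))

end Pool.Agent.S04282
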