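import Pool.Statements.S04344
import Pool.Agent.BLL.Final

set_option autoImplicit false
open MeasureTheory Filter Topology
open Pool Pool.MP_379c13_an

namespace Pool.Agent.S04344

/-- The negation of the preceding statement: For every essentially distinct family of integer polynomials and every d: if the order-d Host–Kra factor is characteristic for the polynomial averages in all Weyl systems, then it is characteristic in all invertible standard measure-preserving systems. -/
theorem result :
    ¬ (∀ (ℓ : ℕ) (P : Fin ℓ → Polynomial ℤ),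
    (∀ i, 0 < (P i).natDegree) → (∀ i j, i ≠ j → 0 < (P i - P j).natDegree) →
    ∀ d : ℕ,
      (∀ (m : ℕ) (A : Matrix (Fin m) (Fin m) ℤ) (b : Fin m → UnitAddCircle)
          (T : (Fin m → UnitAddCircle) ≃ᵐ (Fin m → UnitAddCircle)),
          (A - 1) ^ m = 0 → (∀ x, T x = fun i => (∑ j, A i j • x j) + b i) →
          ∀ f : Fin ℓ → (Fin m → UnitAddCircle) → ℂ, (∀ i, Measurable (f i)) →
            (∀ i, ∃ C : ℝ, ∀ x, ‖f i x‖ ≤ C) →
            (∃ i, Tendsto (fun H : ℕ => (1 / (H : ℂ) ^ (d + 1)) *
                ∑ h ∈ Fintype.piFinset (fun _ : Fin (d + 1) => Finset.range H),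
                  ∫ x, ∏ ε : Fin (d + 1) → Bool,
                    (⇑(starRingEnd ℂ))^[(Finset.univ.filter (fun j => ε j = true)).card]
                      (f i (((T.toEquiv : Equiv.Perm (Fin m → UnitAddCircle)) ^
                        (∑ j, if ε j = true then (h j : ℤ) else 0)) x)) ∂volume)
                atTop (𝓝 0)) →
            Tendsto (fun N : ℕ => ∫ x, ‖(1 / (N : ℂ)) * ∑ n ∈ Finset.Icc 1 N,
                ∏ i, f i (((T.toEquiv : Equiv.Perm (Fin m → UnitAddCircle)) ^
                  ((P i).eval (n : ℤ))) x)‖ ^ 2 ∂volume) atTop (𝓝 0)) →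
      (∀ (X : Type) [MeasurableSpace X] [StandardBorelSpace X] (μ : Measure X)
          [IsProbabilityMeasure μ] (T : X ≃ᵐ X), MeasurePreserving T μ μ →
          ∀ f : Fin ℓ → X → ℂ, (∀ i, Measurable (f i)) →
            (∀ i, ∃ C : ℝ, ∀ x, ‖f i x‖ ≤ C) →
            (∃ i, Tendsto (fun H : ℕ => (1 / (H : ℂ) ^ (d + 1)) *
                ∑ h ∈ Fintype.piFinset (fun _ : Fin (d + 1) => Finset.range H),
                  ∫ x, ∏ ε : Fin (d + 1) → Bool,
                    (⇑(starRingEnd ℂ))^[(Finset.univ.filter (fun j => ε j = true)).card]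
                      (f i (((T.toEquiv : Equiv.Perm X) ^
                        (∑ j, if ε j = true then (h j : ℤ) else 0)) x)) ∂μ)
                atTop (𝓝 0)) →
            Tendsto (fun N : ℕ => ∫ x, ‖(1 / (N : ℂ)) * ∑ n ∈ Finset.Icc 1 N,
                ∏ i, f i (((T.toEquiv : Equiv.Perm X) ^
                  ((P i).eval (n : ℤ))) x)‖ ^ 2 ∂μ) atTop (𝓝 0))) := by
  intro H
  obtain ⟨X, i1, i2, μ, i3, T, hT, f, hf, hb, hbox, hno⟩ := Pool.Agent.BLL.npart
  refine hno (H 7 Pool.Agent.BLL.P Pool.Agent.BLL.deg1 Pool.Agent.BLL.deg2 3 ?_ X μ T hT f hf hb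
    hbox)
  exact Pool.Agent.BLL.wpart

end Pool.Agent.S04344
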