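import Pool.Statements.S04524
import Pool.Agent.Dilates.Final

set_option autoImplicit false
open MeasureTheory Filter Topology
open Pool Pool.MP_4470cb_an

namespace Pool.Agent.S04524

open Pool.Agent.Dilates in
/-- The negation of the preceding statement: For every integer p ≥ 2 and every strictly increasing integer sequence c_n, the ×p-invariant atomless probability measures on the circle whose dilates by c_n do not converge weak-* to Lebesgue form a comeager subset of all ×p-invariant probability measures. -/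
theorem result :
    ¬ (∀ p : ℕ, 2 ≤ p → ∀ c : ℕ → ℤ, StrictMono c →
      {μ : {ν : ProbabilityMeasure UnitAddCircle //
              (ν : Measure UnitAddCircle).map (fun x : UnitAddCircle => p • x)
                = (ν : Measure UnitAddCircle)} |
        (∀ x : UnitAddCircle, (μ.1 : Measure UnitAddCircle) {x} = 0) ∧
        ¬ (∀ f : C(UnitAddCircle, ℝ),
            Tendsto (fun n : ℕ => ∫ x, f (c n • x) ∂(μ.1 : Measure UnitAddCircle))
              atTop (𝓝 (∫ x, f x)))} ∈ residual _) := by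
  intro hall
  obtain ⟨c, hc, hgen⟩ := generic_seq
  have hmono : StrictMono (fun n => ((c n : ℕ) : ℤ)) := by
    apply strictMono_nat_of_lt_succ
    intro n
    have h1 := (hc n).2
    have h2 := (hc (n + 1)).1
    exact_mod_cast lt_of_lt_of_le h1 h2
  have hres := hall 2 le_rfl (fun n => ((c n : ℕ) : ℤ)) hmono
  -- the space of invariant measures is a nonempty compact Hausdorff space
  let X : Type := {ν : ProbabilityMeasure UnitAddCircle //
              (ν : Measure UnitAddCircle).map (fun x : UnitAddCircle => 2 • x)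
                = (ν : Measure UnitAddCircle)}
  have hcomp : CompactSpace X := isCompact_iff_compactSpace.mp P2_isClosed.isCompact
  have hbaire : BaireSpace X := inferInstance
  have hne : Nonempty X := by
    obtain ⟨ν, hν⟩ := P2_nonempty
    exact ⟨⟨ν, hν⟩⟩
  -- dense open sets
  have hD : ∀ (k : {k : ℤ // Odd k}) (j : ℕ),
      {μ : X | ∃ U : Set (ProbabilityMeasure UnitAddCircle), IsOpen U ∧ μ.1 ∈ U ∧
        ∃ n₀ : ℕ, ∀ n ≥ n₀, ∀ μ ∈ U ∩ P2,
          ‖∫ x, (fourier (k.1 * c n) x : ℂ) ∂(μ : Measure UnitAddCircle)‖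
            ≤ 3 * (1 / ((j : ℝ) + 1))} ∈ residual X := by
    intro k j
    apply residual_of_dense_open
    · rw [isOpen_iff_forall_mem_open]
      rintro μ ⟨U, hU, hμU, n₀, hn₀⟩
      refine ⟨Subtype.val ⁻¹' U, ?_, hU.preimage continuous_subtype_val, hμU⟩
      intro μ' hμ'
      exact ⟨U, hU, hμ', n₀, hn₀⟩
    · rw [dense_iff_inter_open]
      intro V hV hVne
      obtain ⟨V', hV', rfl⟩ := isOpen_induced_iff.mp hV
      obtain ⟨μ, hμ⟩ := hVne
      obtain ⟨U, hU, hUV, ⟨ν, hνU, hν⟩, n₀, hn₀⟩ := hgen k.1 k.2 j V' hV' ⟨μ.1, hμ, μ.2⟩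
      exact ⟨⟨ν, hν⟩, hUV hνU, U, hU, hνU, n₀, hn₀⟩
  have hD2 : (⋂ (k : {k : ℤ // Odd k}), ⋂ (j : ℕ),
      {μ : X | ∃ U : Set (ProbabilityMeasure UnitAddCircle), IsOpen U ∧ μ.1 ∈ U ∧
        ∃ n₀ : ℕ, ∀ n ≥ n₀, ∀ μ ∈ U ∩ P2,
          ‖∫ x, (fourier (k.1 * c n) x : ℂ) ∂(μ : Measure UnitAddCircle)‖
            ≤ 3 * (1 / ((j : ℝ) + 1))}) ∈ residual X := by
    rw [countable_iInter_mem]
    intro k
    rw [countable_iInter_mem]
    intro j
    exact hD k j
  have hboth := Filter.inter_mem hres hD2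
  obtain ⟨μ, ⟨-, hμ1⟩, hμ2⟩ := (dense_of_mem_residual hboth).nonempty
  apply hμ1
  intro g
  refine tendsto_all c μ.1 μ.2 ?_ g
  intro k hk
  rw [Metric.tendsto_atTop]
  intro ε hε
  obtain ⟨j, hj⟩ := exists_nat_gt (3 / ε)
  have hμ3 := Set.mem_iInter.mp (Set.mem_iInter.mp hμ2 ⟨k, hk⟩) j
  obtain ⟨U, hU, hμU, n₀, hn₀⟩ := hμ3
  refine ⟨n₀, fun n hn => ?_⟩
  rw [dist_zero_right]
  refine (hn₀ n hn μ.1 ⟨hμU, μ.2⟩).trans_lt ?_
  rw [mul_one_div, div_lt_iff₀ (by positivity)]
  rw [div_lt_iff₀ hε] at hj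
  nlinarith

end Pool.Agent.S04524
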