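import Pool.Statements.S04575
import Pool.Agent.MinExt.Main

set_option autoImplicit false
open Pool Pool.MP_49bdf6_an

namespace Pool.Agent.S04575

/-- Over ℝ or ℂ, in every separable Banach space, every strictly bounded minimal sequence extends, by adding countably many vectors, to a minimal, strictly bounded sequence whose closed linear span is the whole space. -/
theorem result :
    ∀ (𝕜 : Type) [RCLike 𝕜] (E : Type) [NormedAddCommGroup E] [NormedSpace 𝕜 E]
      [CompleteSpace E] [TopologicalSpace.SeparableSpace E] (x : ℕ → E),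
      (∃ (C D : ℝ) (f : ℕ → (E →L[𝕜] 𝕜)),
        (∀ i j : ℕ, (i = j → f i (x j) = 1) ∧ (i ≠ j → f i (x j) = 0)) ∧
        (∀ n : ℕ, ‖x n‖ ≤ C ∧ ‖f n‖ ≤ D)) →
      ∃ (ι : Type) (_ : Countable ι) (y : ι → E) (C D : ℝ) (g : ℕ ⊕ ι → (E →L[𝕜] 𝕜)),
        (∀ i j : ℕ ⊕ ι, (i = j → g i (Sum.elim x y j) = 1) ∧
            (i ≠ j → g i (Sum.elim x y j) = 0)) ∧
        (∀ i : ℕ ⊕ ι, ‖Sum.elim x y i‖ ≤ C ∧ ‖g i‖ ≤ D) ∧
        (Submodule.span 𝕜 (Set.range (Sum.elim x y))).topologicalClosure = ⊤ := by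
  intro 𝕜 _ E _ _ _ _ x hx
  obtain ⟨C, D, f, hbi, hbd⟩ := hx
  have hbi' : ∀ n k, f n (x k) = if n = k then 1 else 0 := by
    intro n k
    split_ifs with h
    · exact (hbi n k).1 h
    · exact (hbi n k).2 h
  obtain ⟨P, C', D', h, hc, h1, h2, h3, h4, h5, h6, h7⟩ :=
    Pool.Agent.MinExt.main (𝕜 := 𝕜) x f D hbi' (fun n => (hbd n).2)
  refine ⟨P, hc.to_subtype, fun p => p.1.1, max C C', max D' C',
    Sum.elim h (fun p => p.1.2), ?_, ?_, ?_⟩
  · rintro (i | p) (j | q)
    · simp only [Sum.elim_inl, h1 i j]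
      constructor
      · intro hij
        rw [if_pos (Sum.inl_injective hij)]
      · intro hij
        rw [if_neg (fun hh => hij (by rw [hh]))]
    · simp only [Sum.elim_inl, Sum.elim_inr]
      exact ⟨fun hh => absurd hh (by simp), fun _ => (h2 i q.1 q.2).1⟩
    · simp only [Sum.elim_inl, Sum.elim_inr]
      exact ⟨fun hh => absurd hh (by simp), fun _ => (h2 j p.1 p.2).2⟩
    · simp only [Sum.elim_inr]
      constructor
      · intro hpq
        have : p = q := Sum.inr_injective hpq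
        rw [← this]
        exact h3 p.1 p.2
      · intro hpq
        exact h4 p.1 p.2 q.1 q.2 (fun hh => hpq (by rw [Subtype.ext hh]))
  · rintro (i | p)
    · exact ⟨(hbd i).1.trans (le_max_left _ _), (h5 i).trans (le_max_left _ _)⟩
    · exact ⟨(h6 p.1 p.2).1.trans (le_max_right _ _), (h6 p.1 p.2).2.trans (le_max_right _ _)⟩
  · have hr : Set.range (Sum.elim x (fun p : P => p.1.1)) = Set.range x ∪ Prod.fst '' P := by
      rw [Set.Sum.elim_range]
      congr 1
      ext v
      simp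
    rw [hr]
    exact h7

end Pool.Agent.S04575
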