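import Pool.Statements.S05165
import Pool.Agent.HQ.HardyAll
import Pool.Agent.HQT.Three

set_option autoImplicit false
open Complex
open Pool Pool.MP_7da5c3_an

namespace Pool.Agent.S05165

/-- For every univalent sense-preserving harmonic map h+conj(g) of the unit disk with h(0)=0, h'(0)=1, g(0)=g'(0)=0, and every 0<p<1/3, the p-th integral means of h and of g on circles of radius r<1 stay bounded. -/
theorem result :
    ∀ h g : ℂ → ℂ,
      DifferentiableOn ℂ h (Metric.ball (0 : ℂ) 1) →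
      DifferentiableOn ℂ g (Metric.ball (0 : ℂ) 1) →
      Set.InjOn (fun z => h z + (starRingEnd ℂ) (g z)) (Metric.ball (0 : ℂ) 1) →
      (∀ z ∈ Metric.ball (0 : ℂ) 1, ‖deriv g z‖ < ‖deriv h z‖) →
      h 0 = 0 → deriv h 0 = 1 → g 0 = 0 → deriv g 0 = 0 →
      ∀ p : ℝ, 0 < p → p < 1 / 3 →
        (∃ M : ℝ, ∀ r : ℝ, 0 ≤ r → r < 1 →
          ∫ θ in (0 : ℝ)..(2 * Real.pi),
            ‖h ((r : ℂ) * Complex.exp ((θ : ℂ) * Complex.I))‖ ^ p ≤ M) ∧
        (∃ M : ℝ, ∀ r : ℝ, 0 ≤ r → r < 1 →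
          ∫ θ in (0 : ℝ)..(2 * Real.pi),
            ‖g ((r : ℂ) * Complex.exp ((θ : ℂ) * Complex.I))‖ ^ p ≤ M) := by
  intro h g hh hg hinj hor _ _ _ _ p hp hp1
  exact Pool.Agent.HQ.hardy_all (Real.exp_pos _) (by norm_num) Pool.Agent.HQT.growthBound_three
    hh hg hinj hor hp hp1

end Pool.Agent.S05165
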