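-- Proof of frozen statement S05242: an explicit real-analytic counterexample in dimension four.
import Pool.Statements.S05242

set_option autoImplicit false
open Pool Pool.MP_830bfa_an

namespace Pool.Agent.S05242

/-- The auxiliary positive function `G(x, v) = 2 + exp v + x ^ 2 exp (-v)`, as a function on `ℝ⁴`. -/
noncomputable def gfun (u : Fin 4 → ℝ) : ℝ :=
  2 + Real.exp (u 2) + (u 1) ^ 2 * Real.exp (-(u 2))

/-- The counterexample map on `ℝ⁴`. -/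
noncomputable def cmap (u : Fin 4 → ℝ) : Fin 4 → ℝ :=
  ![u 3 + 3 * u 1 * u 0,
    gfun u - (1 / 2) * (u 0) ^ 2,
    u 2 - 2 * (u 1 * Real.exp (-(u 2))),
    (u 0) ^ 3 - 3 * (gfun u * u 0)]

/-- Its Jacobian matrix. -/
noncomputable def cjac (u : Fin 4 → ℝ) : Matrix (Fin 4) (Fin 4) ℝ :=
  !![3 * u 1, 3 * u 0, 0, 1;
     -(u 0), 2 * u 1 * Real.exp (-(u 2)), Real.exp (u 2) - (u 1) ^ 2 * Real.exp (-(u 2)), 0;
     0, -(2 * Real.exp (-(u 2))), 1 + 2 * u 1 * Real.exp (-(u 2)), 0;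
     3 * (u 0) ^ 2 - 3 * gfun u, -(3 * u 0 * (2 * u 1 * Real.exp (-(u 2)))),
       -(3 * u 0 * (Real.exp (u 2) - (u 1) ^ 2 * Real.exp (-(u 2)))), 0]

lemma contDiff_gfun : ContDiff ℝ 1 gfun := by
  unfold gfun
  fun_prop

lemma contDiff_cmap : ContDiff ℝ 1 cmap := by
  have hg := contDiff_gfun
  rw [contDiff_pi]
  intro i
  fin_cases i
  · show ContDiff ℝ 1 (fun u : Fin 4 → ℝ => u 3 + 3 * u 1 * u 0)
    fun_prop
  · show ContDiff ℝ 1 (fun u : Fin 4 → ℝ => gfun u - (1 / 2) * (u 0) ^ 2)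
    fun_prop
  · show ContDiff ℝ 1 (fun u : Fin 4 → ℝ => u 2 - 2 * (u 1 * Real.exp (-(u 2))))
    fun_prop
  · show ContDiff ℝ 1 (fun u : Fin 4 → ℝ => (u 0) ^ 3 - 3 * (gfun u * u 0))
    fun_prop

lemma hasFDerivAt_coord (x : Fin 4 → ℝ) (i : Fin 4) :
    HasFDerivAt (fun u : Fin 4 → ℝ => u i)
      (ContinuousLinearMap.proj (R := ℝ) (φ := fun _ : Fin 4 => ℝ) i) x :=
  (ContinuousLinearMap.proj (R := ℝ) (φ := fun _ : Fin 4 => ℝ) i).hasFDerivAt

lemma hasFDerivAt_gfun (x : Fin 4 → ℝ) :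
    HasFDerivAt gfun
      ((2 * x 1 * Real.exp (-(x 2))) • (ContinuousLinearMap.proj (R := ℝ) (φ := fun _ : Fin 4 => ℝ) 1)
        + (Real.exp (x 2) - (x 1) ^ 2 * Real.exp (-(x 2))) •
          (ContinuousLinearMap.proj (R := ℝ) (φ := fun _ : Fin 4 => ℝ) 2)) x := by
  have h1 := hasFDerivAt_coord x 1
  have h2 := hasFDerivAt_coord x 2
  have h := ((h2.exp.const_add 2).add ((h1.pow 2).mul (h2.neg.exp)))
  refine h.congr_fderiv ?_
  ext v
  simp
  ring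

lemma hasFDerivAt_cmap (x : Fin 4 → ℝ) :
    HasFDerivAt cmap (LinearMap.toContinuousLinearMap (Matrix.toLin' (cjac x))) x := by
  have h0 := hasFDerivAt_coord x 0
  have h1 := hasFDerivAt_coord x 1
  have h2 := hasFDerivAt_coord x 2
  have h3 := hasFDerivAt_coord x 3
  have hg := hasFDerivAt_gfun x
  rw [hasFDerivAt_pi']
  intro i
  fin_cases i
  · have h := h3.add ((h1.const_mul 3).mul h0)
    refine HasFDerivAt.congr_fderiv (f := fun u : Fin 4 → ℝ => u 3 + 3 * u 1 * u 0) h ?_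
    ext v
    simp [cjac, Matrix.toLin'_apply, dotProduct, Fin.sum_univ_four]
    ring
  · have h := hg.sub ((h0.pow 2).const_mul (1 / 2))
    refine HasFDerivAt.congr_fderiv
      (f := fun u : Fin 4 → ℝ => gfun u - (1 / 2) * (u 0) ^ 2) h ?_
    ext v
    simp [cjac, Matrix.toLin'_apply, dotProduct, Fin.sum_univ_four]
    ring
  · have h := h2.sub ((h1.mul h2.neg.exp).const_mul 2)
    refine HasFDerivAt.congr_fderiv
      (f := fun u : Fin 4 → ℝ => u 2 - 2 * (u 1 * Real.exp (-(u 2)))) h ?_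
    ext v
    simp [cjac, Matrix.toLin'_apply, dotProduct, Fin.sum_univ_four]
    ring
  · have h := (h0.pow 3).sub ((hg.mul h0).const_mul 3)
    refine HasFDerivAt.congr_fderiv
      (f := fun u : Fin 4 → ℝ => (u 0) ^ 3 - 3 * (gfun u * u 0)) h ?_
    ext v
    simp [cjac, Matrix.toLin'_apply, dotProduct, Fin.sum_univ_four]
    ring

lemma toMatrix_fderiv_cmap (x : Fin 4 → ℝ) :
    LinearMap.toMatrix' ((fderiv ℝ cmap x : (Fin 4 → ℝ) →L[ℝ] (Fin 4 → ℝ)) :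
          (Fin 4 → ℝ) →ₗ[ℝ] (Fin 4 → ℝ)) = cjac x := by
  rw [(hasFDerivAt_cmap x).fderiv]
  simp

/-- The characteristic polynomial of the Jacobian matrix, evaluated at a complex number, factors. -/
lemma charpoly_cjac (x : Fin 4 → ℝ) (z : ℂ) :
    Polynomial.aeval z (cjac x).charpoly =
      (z ^ 2 - 3 * (x 1 : ℂ) * z + 3 * (gfun x : ℂ)) *
        (z ^ 2 - (4 * ((x 1 * Real.exp (-(x 2)) : ℝ) : ℂ) + 1) * z
          + 2 * (1 + ((x 1 * Real.exp (-(x 2)) : ℝ) : ℂ)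
            + ((x 1 * Real.exp (-(x 2)) : ℝ) : ℂ) ^ 2)) := by
  have hEC : Complex.exp (x 2 : ℂ) * Complex.exp (-(x 2 : ℂ)) = 1 := by
    rw [← Complex.exp_add]; simp
  rw [Polynomial.aeval_def, ← Polynomial.eval_map, ← Matrix.charpoly_map, Matrix.eval_charpoly]
  unfold gfun
  rw [Matrix.det_succ_row_zero]
  simp only [Fin.sum_univ_four, Matrix.det_fin_three, cjac, gfun]
  simp [Fin.succAbove, Matrix.scalar_apply]
  linear_combination (z ^ 2 - 3 * (x 1 : ℂ) * z + 3 * (2 + Complex.exp (x 2 : ℂ) +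
    (x 1 : ℂ) ^ 2 * Complex.exp (-(x 2 : ℂ)))) * 2 * hEC

/-- A quadratic `z ^ 2 - b z + c` whose constant term dominates has no root near `0`. -/
lemma quad_ne_zero (z b c : ℂ) (h : ‖z‖ ^ 2 + ‖b‖ * ‖z‖ < ‖c‖) : z ^ 2 - b * z + c ≠ 0 := by
  intro h0
  have h1 : c = b * z - z ^ 2 := by linear_combination h0
  have h2 : ‖c‖ ≤ ‖b‖ * ‖z‖ + ‖z‖ ^ 2 := by
    rw [h1]
    calc ‖b * z - z ^ 2‖ ≤ ‖b * z‖ + ‖z ^ 2‖ := norm_sub_le _ _
      _ = ‖b‖ * ‖z‖ + ‖z‖ ^ 2 := by rw [norm_mul, norm_pow]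
  linarith

lemma gfun_lower (x : Fin 4 → ℝ) : 2 + 2 * |x 1| ≤ gfun x := by
  have hE : Real.exp (x 2) * Real.exp (-(x 2)) = 1 := by
    rw [← Real.exp_add]; simp
  have h1 := Real.exp_pos (x 2)
  have h2 := Real.exp_pos (-(x 2))
  have h3 : (Real.exp (x 2) - |x 1|) ^ 2 * Real.exp (-(x 2)) ≥ 0 := by positivity
  have h4 : |x 1| ^ 2 = (x 1) ^ 2 := sq_abs _
  unfold gfun
  have h5 : (Real.exp (x 2) - |x 1|) ^ 2 * Real.exp (-(x 2)) =
      Real.exp (x 2) * (Real.exp (x 2) * Real.exp (-(x 2)))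
        - 2 * |x 1| * (Real.exp (x 2) * Real.exp (-(x 2)))
        + |x 1| ^ 2 * Real.exp (-(x 2)) := by ring
  rw [hE, h4] at h5
  linarith

lemma root_lower (x : Fin 4 → ℝ) (z : ℂ)
    (hz : Polynomial.aeval z (cjac x).charpoly = 0) : 1 / 4 ≤ ‖z‖ := by
  by_contra hlt
  push Not at hlt
  have hn := norm_nonneg z
  rw [charpoly_cjac] at hz
  set r : ℝ := x 1 * Real.exp (-(x 2)) with hr
  have hg := gfun_lower x
  have habs := abs_nonneg (x 1)
  rcases mul_eq_zero.mp hz with h | h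
  · refine quad_ne_zero z (3 * (x 1 : ℂ)) (3 * (gfun x : ℂ)) ?_ h
    have e1 : ‖(3 : ℂ) * (x 1 : ℂ)‖ = 3 * |x 1| := by simp
    have e2 : ‖(3 : ℂ) * (gfun x : ℂ)‖ = 3 * gfun x := by
      rw [norm_mul, Complex.norm_real, Real.norm_of_nonneg (by linarith)]
      simp
    rw [e1, e2]
    nlinarith
  · refine quad_ne_zero z (4 * (r : ℂ) + 1) (2 * (1 + (r : ℂ) + (r : ℂ) ^ 2)) ?_ h
    have e1 : ‖(4 : ℂ) * (r : ℂ) + 1‖ ≤ 4 * |r| + 1 := by
      calc ‖(4 : ℂ) * (r : ℂ) + 1‖ ≤ ‖(4 : ℂ) * (r : ℂ)‖ + ‖(1 : ℂ)‖ := norm_add_le _ _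
        _ = 4 * |r| + 1 := by simp
    have e2 : ‖(2 : ℂ) * (1 + (r : ℂ) + (r : ℂ) ^ 2)‖ = 2 * (1 + r + r ^ 2) := by
      have : (2 : ℂ) * (1 + (r : ℂ) + (r : ℂ) ^ 2) = ((2 * (1 + r + r ^ 2) : ℝ) : ℂ) := by
        push_cast; ring
      rw [this, Complex.norm_real, Real.norm_of_nonneg (by nlinarith [sq_nonneg (r + 1), sq_nonneg r])]
    rw [e2]
    have h4 : |r| ^ 2 = r ^ 2 := sq_abs _
    have h5 : -|r| ≤ r := neg_abs_le r
    have h6 := abs_nonneg r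
    have h7 : ‖(4 : ℂ) * (r : ℂ) + 1‖ * ‖z‖ ≤ (4 * |r| + 1) * (1 / 4) := by
      apply mul_le_mul e1 hlt.le hn (by positivity)
    have h8 : ‖z‖ ^ 2 ≤ 1 / 16 := by nlinarith
    nlinarith [sq_nonneg (|r| - 3 / 4)]

lemma det_cjac_ne_zero (x : Fin 4 → ℝ) : (cjac x).det ≠ 0 := by
  intro h
  have h1 : (cjac x).charpoly.eval 0 = 0 := by
    rw [Matrix.eval_charpoly]
    have : (Matrix.scalar (Fin 4)) (0 : ℝ) - cjac x = - cjac x := by simp
    rw [this, Matrix.det_neg, h, mul_zero]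
  have h2 : Polynomial.aeval (0 : ℂ) (cjac x).charpoly = 0 := by
    rw [Polynomial.aeval_def, ← Polynomial.eval_map, ← Polynomial.coeff_zero_eq_eval_zero,
      Polynomial.coeff_map, Polynomial.coeff_zero_eq_eval_zero, h1, map_zero]
  have h3 := root_lower x 0 h2
  simp at h3
  linarith

lemma cmap_not_injective : ¬ Function.Injective cmap := by
  intro hinj
  have h : cmap ![3, 0, 0, 0] = cmap ![-3, 0, 0, 0] := by
    ext i
    fin_cases i
    · simp [cmap, gfun]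
    · simp [cmap, gfun]
    · simp [cmap, gfun]
    · simp [cmap, gfun]
      norm_num
  have h2 := congrFun (hinj h) 0
  simp at h2
  norm_num at h2

/-- The negation of the preceding statement: For every n ≥ 2, a C¹ map f from ℝⁿ to ℝⁿ whose Jacobian is everywhere invertible, with every complex eigenvalue of every Jacobian of modulus at least some fixed ε > 0, is injective. -/
theorem result :
    ¬ (∀ n : ℕ, 2 ≤ n → ∀ f : (Fin n → ℝ) → (Fin n → ℝ), ContDiff ℝ 1 f →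
      (∀ x : Fin n → ℝ,
        (LinearMap.toMatrix' ((fderiv ℝ f x : (Fin n → ℝ) →L[ℝ] (Fin n → ℝ)) :
          (Fin n → ℝ) →ₗ[ℝ] (Fin n → ℝ))).det ≠ 0) →
      (∃ ε : ℝ, 0 < ε ∧ ∀ x : Fin n → ℝ, ∀ z : ℂ,
        Polynomial.aeval z
          (LinearMap.toMatrix' ((fderiv ℝ f x : (Fin n → ℝ) →L[ℝ] (Fin n → ℝ)) :
            (Fin n → ℝ) →ₗ[ℝ] (Fin n → ℝ))).charpoly = 0 → ε ≤ ‖z‖) →
      Function.Injective f) := by
  intro H
  refine cmap_not_injective (H 4 (by norm_num) cmap contDiff_cmap ?_ ⟨1 / 4, by norm_num, ?_⟩)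
  · intro x
    rw [toMatrix_fderiv_cmap]
    exact det_cjac_ne_zero x
  · intro x z hz
    rw [toMatrix_fderiv_cmap] at hz
    exact root_lower x z hz

end Pool.Agent.S05242
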