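import Pool.Statements.S05817
import Pool.Agent.H26.HCFinal

set_option autoImplicit false
open Pool Pool.MP_af15e5_an

namespace Pool.Agent.S05817

/-- For real α,β ≥ 1 and φ holomorphic on the unit disc: if the Hadamard product of φ with (1+xz)^α/(1−z)^β never vanishes for ∣x∣=1, ∣z∣<1, then neither does its Hadamard product with (1+xz)^(α−1)/(1−z)^β. -/
theorem result :
    ∀ α β : ℝ, 1 ≤ α → 1 ≤ β →
    ∀ φ : ℂ → ℂ, DifferentiableOn ℂ φ (Metric.ball (0 : ℂ) 1) →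
    (∀ x : ℂ, ‖x‖ = 1 → ∀ z : ℂ, ‖z‖ < 1 →
      (∑' n : ℕ, (iteratedDeriv n φ 0 / (n.factorial : ℂ)) *
        (iteratedDeriv n (fun w : ℂ => (1 + x * w) ^ (α : ℂ) * (1 - w) ^ (-(β : ℂ))) 0
          / (n.factorial : ℂ)) * z ^ n) ≠ 0) →
    (∀ x : ℂ, ‖x‖ = 1 → ∀ z : ℂ, ‖z‖ < 1 →
      (∑' n : ℕ, (iteratedDeriv n φ 0 / (n.factorial : ℂ)) *
        (iteratedDeriv n (fun w : ℂ => (1 + x * w) ^ ((α : ℂ) - 1) * (1 - w) ^ (-(β : ℂ))) 0
          / (n.factorial : ℂ)) * z ^ n) ≠ 0) := by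
  intro α β hα hβ φ hφ hN x hx z hz
  exact Pool.Agent.H26.HC.hadamard_lower α β hα hβ φ hφ hN x hx z hz

end Pool.Agent.S05817
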