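import Pool.Statements.S06376
import Pool.Agent.SympBill.Geo

set_option autoImplicit false
open Pool Pool.MP_dbbb5c_an

namespace Pool.Agent.S06376

/-- The negation of the preceding statement: Every convex polygon has a periodic symplectic billiard orbit: boundary points off the vertices, each next chord endpoint on the line through the previous point parallel to the current side, that line crossing the polygon's interior. -/
theorem result :
    ¬ (∀ S : Finset (ℝ × ℝ), (interior (convexHull ℝ (↑S : Set (ℝ × ℝ)))).Nonempty →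
    ∃ n : ℕ, 0 < n ∧ ∃ x : ℕ → ℝ × ℝ, (∀ i, x (i + n) = x i) ∧
      ∀ i : ℕ,
        x i ∈ frontier (convexHull ℝ (↑S : Set (ℝ × ℝ))) ∧
        x i ∉ Set.extremePoints ℝ (convexHull ℝ (↑S : Set (ℝ × ℝ))) ∧
        x (i + 2) ≠ x i ∧
        ∃ a b : ℝ, (a ≠ 0 ∨ b ≠ 0) ∧
          a * ((x (i + 2)).1 - (x i).1) + b * ((x (i + 2)).2 - (x i).2) = 0 ∧
          (∀ p ∈ convexHull ℝ (↑S : Set (ℝ × ℝ)),
              a * p.1 + b * p.2 ≤ a * (x (i + 1)).1 + b * (x (i + 1)).2) ∧
          a * (x i).1 + b * (x i).2 < a * (x (i + 1)).1 + b * (x (i + 1)).2 ∧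
          ∃ p ∈ convexHull ℝ (↑S : Set (ℝ × ℝ)),
              a * p.1 + b * p.2 < a * (x i).1 + b * (x i).2) := by
  intro h
  obtain ⟨n, hn, x, hper, hx⟩ := h SympBill.VS SympBill.hep_interior
  exact SympBill.main hn hper hx

end Pool.Agent.S06376
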