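import Pool.Statements.S06632
import Pool.Agent.LqEmb.Core

set_option autoImplicit false
open Pool Pool.MP_efb015_an

namespace Pool.Agent.S06632

/-- The negation of the preceding statement: For every exponent q with 2 < q < ∞, real L_q[0,1] admits a coarse embedding into ℓ_q, or it admits a uniform embedding (injective, uniformly continuous, with uniformly continuous inverse on the image) into ℓ_q. -/
theorem result :
    ¬ (∀ (p : ENNReal) [Fact (1 ≤ p)], (2 : ENNReal) < p → p ≠ ⊤ →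
      (∃ f : MeasureTheory.Lp ℝ p ((MeasureTheory.volume : MeasureTheory.Measure ℝ).restrict (Set.Icc 0 1)) →
            lp (fun _ : ℕ => ℝ) p,
          ∃ ρ₁ ρ₂ : ℝ → ℝ, MonotoneOn ρ₁ (Set.Ici 0) ∧ MonotoneOn ρ₂ (Set.Ici 0) ∧
            Filter.Tendsto ρ₁ Filter.atTop Filter.atTop ∧
            ∀ x y, ρ₁ (dist x y) ≤ dist (f x) (f y) ∧ dist (f x) (f y) ≤ ρ₂ (dist x y)) ∨
      (∃ f : MeasureTheory.Lp ℝ p ((MeasureTheory.volume : MeasureTheory.Measure ℝ).restrict (Set.Icc 0 1)) →
            lp (fun _ : ℕ => ℝ) p,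
          IsUniformEmbedding f)) := by
  intro hall
  have h4 := hall 4 (by norm_num) (by norm_num)
  rcases h4 with ⟨f, ρ₁, ρ₂, -, hρ₂, hlim, hf⟩ | ⟨f, hf⟩
  · -- no coarse embedding
    set C : ℝ := max (ρ₂ 20) 1 with hC
    have hCpos : 0 < C := lt_of_lt_of_le one_pos (le_max_right _ _)
    have hfC : ∀ x y, ‖x - y‖ ≤ 20 → ‖f x - f y‖ ≤ C := by
      intro x y hxy
      rw [← dist_eq_norm] at hxy ⊢
      refine (hf x y).2.trans (le_trans ?_ (le_max_left _ _))
      exact hρ₂ (Set.mem_Ici.2 dist_nonneg) (Set.mem_Ici.2 (by norm_num)) hxy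
    obtain ⟨R₀, hR₀⟩ := Filter.eventually_atTop.1 (hlim.eventually_gt_atTop (5 * C))
    obtain ⟨R, hR⟩ := exists_nat_ge (max R₀ 1)
    have hR1 : 1 ≤ R := by
      have : (1 : ℝ) ≤ R := (le_max_right _ _).trans hR
      exact_mod_cast this
    obtain ⟨x, y, h1, h2⟩ := Pool.Agent.LqEmb.core f C hCpos hfC R hR1
    rw [← dist_eq_norm] at h1 h2
    have h3 := hR₀ (dist x y) (((le_max_left _ _).trans hR).trans h1)
    have h5 := (hf x y).1
    linarith
  · -- no uniform embedding
    obtain ⟨δ, hδ, hδ'⟩ : ∃ δ > 0, ∀ x y, dist (f x) (f y) < δ → dist x y < 1 := by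
      have h1 := (Metric.isUniformInducing_iff.1 hf.isUniformInducing).2 1 one_pos
      obtain ⟨δ, hδ, h2⟩ := h1
      exact ⟨δ, hδ, fun x y h => h2 h⟩
    set C : ℝ := δ / 10 with hC
    have hCpos : 0 < C := by positivity
    obtain ⟨t₀, ht₀, ht⟩ := Metric.uniformContinuous_iff.1 hf.uniformContinuous C hCpos
    set t : ℝ := t₀ / 40 with htdef
    have htpos : 0 < t := by positivity
    have hg : ∀ x y, ‖x - y‖ ≤ 20 → ‖f (t • x) - f (t • y)‖ ≤ C := by
      intro x y hxy
      rw [← dist_eq_norm]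
      refine (ht ?_).le
      rw [dist_eq_norm, ← smul_sub, norm_smul, Real.norm_eq_abs, abs_of_pos htpos]
      have : t * ‖x - y‖ ≤ t * 20 := mul_le_mul_of_nonneg_left hxy htpos.le
      have h3 : t * 20 < t₀ := by rw [htdef]; linarith
      linarith
    obtain ⟨R, hR⟩ := exists_nat_ge (max (1 / t) 1)
    have hR1 : 1 ≤ R := by
      have : (1 : ℝ) ≤ R := (le_max_right _ _).trans hR
      exact_mod_cast this
    obtain ⟨x, y, h1, h2⟩ := Pool.Agent.LqEmb.core (fun x => f (t • x)) C hCpos hg R hR1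
    have h3 : dist (t • x) (t • y) < 1 := by
      apply hδ'
      rw [dist_eq_norm]
      refine lt_of_le_of_lt h2 ?_
      rw [hC]
      linarith
    rw [dist_eq_norm, ← smul_sub, norm_smul, Real.norm_eq_abs, abs_of_pos htpos] at h3
    have h5 : 1 / t ≤ ‖x - y‖ := ((le_max_left _ _).trans hR).trans h1
    have h6 : 1 ≤ t * ‖x - y‖ := by
      have := mul_le_mul_of_nonneg_left h5 htpos.le
      rwa [mul_one_div_cancel htpos.ne'] at this
    linarith

end Pool.Agent.S06632
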