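import Pool.Statements.S06854
import Pool.Agent.MPff6db8.Final

set_option autoImplicit false
open Pool Pool.MP_ff6db8_an

namespace Pool.Agent.S06854

/-- The negation of the preceding statement: For every separable real Banach space whose dual has the C*PCP (each nonempty convex weak*-compact set has a weak*-to-norm point of continuity), every Lipschitz real function that is Gâteaux differentiable everywhere is Fréchet differentiable at some point. -/
theorem result :
    ¬ (∀ (X : Type) [NormedAddCommGroup X] [NormedSpace ℝ X] [CompleteSpace X]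
      [TopologicalSpace.SeparableSpace X],
      (∀ C : Set (X →L[ℝ] ℝ), C.Nonempty → Convex ℝ C →
        @IsCompact (X →L[ℝ] ℝ)
          (TopologicalSpace.induced (fun (φ : X →L[ℝ] ℝ) (x : X) => φ x) inferInstance) C →
        ∃ φ ∈ C, ∀ ε : ℝ, 0 < ε → ∃ U : Set (X →L[ℝ] ℝ),
          @IsOpen (X →L[ℝ] ℝ)
            (TopologicalSpace.induced (fun (φ : X →L[ℝ] ℝ) (x : X) => φ x) inferInstance) U ∧
          φ ∈ U ∧ ∀ ψ ∈ U ∩ C, ‖ψ - φ‖ < ε) →
      ∀ f : X → ℝ, (∃ K, LipschitzWith K f) →
        (∀ x : X, ∃ L : X →L[ℝ] ℝ, ∀ v : X, HasLineDerivAt ℝ f (L v) x v) →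
        ∃ x : X, DifferentiableAt ℝ f x) :=
  Pool.Agent.MPff6db8.final

end Pool.Agent.S06854
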