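import Pool.Statements.S07625
import Pool.Agent.IPP.Final

set_option autoImplicit false
open Pool Pool.MP_21b6c8_co

namespace Pool.Agent.S07625

/-- For all ℓ,k ≥ 1 and ε > 0, every large enough q has a q-ary length-ℓ code with the k-identifiable parent property and more than q^(⌈ℓ/(u−1)⌉−ε) codewords, where u = ⌊(k+2)²/4⌋. -/
theorem result :
    ∀ ℓ k : ℕ, 1 ≤ ℓ → 1 ≤ k → ∀ ε : ℝ, 0 < ε →
      ∃ Q : ℕ, ∀ q : ℕ, Q ≤ q →
        ∃ C : Finset (Fin ℓ → Fin q),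
          (∀ x : Fin ℓ → Fin q,
            (∃ X : Finset (Fin ℓ → Fin q), X ⊆ C ∧ X.card ≤ k ∧
                ∀ i : Fin ℓ, ∃ y ∈ X, y i = x i) →
            ∃ c ∈ C, ∀ X : Finset (Fin ℓ → Fin q), X ⊆ C → X.card ≤ k →
                (∀ i : Fin ℓ, ∃ y ∈ X, y i = x i) → c ∈ X) ∧
          (q : ℝ) ^ (((⌈(ℓ : ℝ) / ((((k + 2) ^ 2 / 4 : ℕ) : ℝ) - 1)⌉ : ℤ) : ℝ) - ε)
            < (C.card : ℝ) :=
  Pool.Agent.IPP.main

end Pool.Agent.S07625
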