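import Pool.Statements.S08197
import Pool.Agent.BHM85.Full

set_option autoImplicit false
open Pool Pool.MP_3ac2b4_co

namespace Pool.Agent.S08197

/-- For every connected bipartite graph G on n+1 vertices, the average number of values taken by a uniformly random map to ℤ with f(vertex 0)=0 and ±1 steps along edges is at most the same average for the path on n+1 vertices. -/
theorem result :
    ∀ (n : ℕ) (G : SimpleGraph (Fin (n + 1))), G.Connected → G.Colorable 2 →
      (∑ᶠ (f : Fin (n + 1) → ℤ)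
          (_ : f ∈ {f : Fin (n + 1) → ℤ | f 0 = 0 ∧ ∀ u v, G.Adj u v → |f u - f v| = 1}),
          ((Finset.univ.image f).card : ℝ)) /
        ((Set.ncard {f : Fin (n + 1) → ℤ | f 0 = 0 ∧ ∀ u v, G.Adj u v → |f u - f v| = 1} : ℕ) : ℝ)
      ≤
      (∑ᶠ (f : Fin (n + 1) → ℤ)
          (_ : f ∈ {f : Fin (n + 1) → ℤ | f 0 = 0 ∧
                ∀ u v, (SimpleGraph.pathGraph (n + 1)).Adj u v → |f u - f v| = 1}),
          ((Finset.univ.image f).card : ℝ)) /
        ((Set.ncard {f : Fin (n + 1) → ℤ | f 0 = 0 ∧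
                ∀ u v, (SimpleGraph.pathGraph (n + 1)).Adj u v → |f u - f v| = 1} : ℕ) : ℝ) := by
  intro n G hG hb
  have key : ∀ (G : SimpleGraph (Fin (n + 1))) (hG : G.Connected),
      (∑ᶠ (f : Fin (n + 1) → ℤ)
          (_ : f ∈ {f : Fin (n + 1) → ℤ | f 0 = 0 ∧ ∀ u v, G.Adj u v → |f u - f v| = 1}),
          ((Finset.univ.image f).card : ℝ)) /
        ((Set.ncard {f : Fin (n + 1) → ℤ | f 0 = 0 ∧ ∀ u v, G.Adj u v → |f u - f v| = 1} : ℕ) : ℝ)
      = (∑ f ∈ Pool.Agent.BHM.homs G hG 0, ((Finset.univ.image f).card : ℝ)) /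
        ((Pool.Agent.BHM.homs G hG 0).card : ℝ) := by
    intro G hG
    unfold Pool.Agent.BHM.homs
    have hfin : {f : Fin (n + 1) → ℤ | f 0 = 0 ∧ ∀ u v, G.Adj u v → |f u - f v| = 1}.Finite :=
      Pool.Agent.BHM.homSet_finite hG 0
    rw [finsum_mem_eq_finite_toFinset_sum _ hfin, Set.ncard_eq_toFinset_card _ hfin]
    rfl
  rw [key G hG, key (SimpleGraph.pathGraph (n + 1)) (SimpleGraph.pathGraph_connected n)]
  have hpos : (0 : ℝ) < ((Pool.Agent.BHM.homs G hG 0).card : ℝ) := by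
    exact_mod_cast Finset.card_pos.mpr (Pool.Agent.BHM.homs_nonempty hG hb 0)
  have hw : ((Pool.Agent.BHM.homs (SimpleGraph.pathGraph (n + 1))
      (SimpleGraph.pathGraph_connected n) 0).card : ℝ) = 2 ^ n := Pool.Agent.BHM.card_walks n
  have h1 := Pool.Agent.BHM85.sum_card_homs_le hG hb
  have h2 := Pool.Agent.BHM85.sum_card_walks_lower n
  have h3 : (∑ f ∈ Pool.Agent.BHM.homs G hG 0, ((Finset.univ.image f).card : ℝ)) /
        ((Pool.Agent.BHM.homs G hG 0).card : ℝ) ≤
      2 * Pool.Agent.BHM85.K^[n] (fun z => (z : ℝ)) 0 + 1 := by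
    rw [div_le_iff₀ hpos, mul_comm]
    exact h1
  refine h3.trans ?_
  rw [hw, le_div_iff₀ (by positivity), mul_comm]
  exact h2

end Pool.Agent.S08197
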