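import Pool.Statements.S09704
import Pool.Agent.Steiner.Main
import Pool.Agent.Steiner.Cover

set_option autoImplicit false
open Pool Pool.MP_7de4e5_co

namespace Pool.Agent.S09704

open Pool.Agent.Steiner in
/-- the counterexample: every connected set through the `2 × m` ladder is long -/
theorem ladder_long (m : ℕ) (hm : 200 ≤ m) (S : Set (EuclideanSpace ℝ (Fin 2))) (hS : IsConnected S)
    (hU : ∀ i < m, Uj i ∈ S) (hD : ∀ i < m, Dj i ∈ S)
    (hH : MeasureTheory.Measure.hausdorffMeasure 1 S ≤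
      ENNReal.ofReal (Real.sqrt 3 * (((2 * m : ℕ) : ℝ) - 1) + 1)) : False := by
  have hm' : (200 : ℝ) ≤ m := by exact_mod_cast hm
  have hK : 0 ≤ Real.sqrt 3 * (((2 * m : ℕ) : ℝ) - 1) + 1 := by
    have h1 : 0 ≤ Real.sqrt 3 := Real.sqrt_nonneg 3
    have h2 : (0 : ℝ) ≤ ((2 * m : ℕ) : ℝ) - 1 := by push_cast; linarith
    positivity
  obtain ⟨E, hE, hconn⟩ := exists_list hS.isPreconnected hK hH (hU (m - 1) (by omega))
    ((List.range m).map Uj ++ (List.range m).map Dj) (by
      intro p hp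
      rcases List.mem_append.mp hp with hp | hp
      · obtain ⟨i, hi, rfl⟩ := List.mem_map.mp hp
        exact hU i (List.mem_range.mp hi)
      · obtain ⟨i, hi, rfl⟩ := List.mem_map.mp hp
        exact hD i (List.mem_range.mp hi))
  have hm1 : ((m - 1 : ℕ) : ℝ) = (m : ℝ) - 1 := by
    rw [Nat.cast_sub (by omega)]; simp
  have hmain := main_bound m (by omega) E (Uj (m - 1)) (by
    intro i hi
    exact ⟨hconn _ (List.mem_append_left _ (List.mem_map.mpr ⟨i, List.mem_range.mpr hi, rfl⟩)),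
      hconn _ (List.mem_append_right _ (List.mem_map.mpr ⟨i, List.mem_range.mpr hi, rfl⟩))⟩)
    (by rw [Uj1, hm1])
  rw [Uj1, hm1] at hmain
  have hs : Real.sqrt 3 ≤ 1.7321 := by
    rw [Real.sqrt_le_left (by norm_num)]
    norm_num
  push_cast at hE
  nlinarith

/-- The negation of the preceding statement: For every ε>0, for all large n, any n points in a √3 by (n−1) rectangle lie in a connected plane set of 1-dimensional Hausdorff measure at most √3(n−1)+ε. -/
theorem result :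
    ¬ (∀ ε : ℝ, 0 < ε → ∃ N : ℕ, ∀ n : ℕ, N ≤ n →
      ∀ P : Fin n → EuclideanSpace ℝ (Fin 2),
        (∀ i, 0 ≤ P i 0 ∧ P i 0 ≤ Real.sqrt 3 ∧ 0 ≤ P i 1 ∧ P i 1 ≤ (n : ℝ) - 1) →
        ∃ S : Set (EuclideanSpace ℝ (Fin 2)), IsConnected S ∧ (∀ i, P i ∈ S) ∧
          MeasureTheory.Measure.hausdorffMeasure 1 S ≤
            ENNReal.ofReal (Real.sqrt 3 * ((n : ℝ) - 1) + ε)) := by
  intro h
  obtain ⟨N, hN⟩ := h 1 one_pos
  set m := max N 200 with hm
  have hm1 : N ≤ m := le_max_left _ _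
  have hm2 : 200 ≤ m := le_max_right _ _
  obtain ⟨S, hS, hP, hH⟩ := hN (2 * m) (by omega)
    (fun i => if i.val % 2 = 0 then Steiner.Dj (i.val / 2) else Steiner.Uj (i.val / 2)) (by
      intro i
      have h2 : 2 * ((i.val / 2 : ℕ) : ℝ) ≤ ((2 * m : ℕ) : ℝ) - 1 := by
        have : 2 * (i.val / 2) + 1 ≤ 2 * m := by have := i.isLt; omega
        have h3 : ((2 * (i.val / 2) + 1 : ℕ) : ℝ) ≤ ((2 * m : ℕ) : ℝ) := by exact_mod_cast this
        push_cast at h3 ⊢
        linarith
      have h3 : (0 : ℝ) ≤ 2 * ((i.val / 2 : ℕ) : ℝ) := by positivity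
      have h4 : 0 ≤ Real.sqrt 3 := Real.sqrt_nonneg 3
      by_cases hi : i.val % 2 = 0
      · simp only [if_pos hi, Steiner.Dj0, Steiner.Dj1]
        exact ⟨le_rfl, h4, h3, h2⟩
      · simp only [if_neg hi, Steiner.Uj0, Steiner.Uj1]
        exact ⟨h4, le_rfl, h3, h2⟩)
  refine ladder_long m hm2 S hS ?_ ?_ hH
  · intro i hi
    have := hP ⟨2 * i + 1, by omega⟩
    have e1 : (2 * i + 1) % 2 = 1 := by omega
    have e2 : (2 * i + 1) / 2 = i := by omega
    simp only [e1, e2, one_ne_zero, if_false] at this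
    exact this
  · intro i hi
    have := hP ⟨2 * i, by omega⟩
    have e1 : (2 * i) % 2 = 0 := by omega
    have e2 : (2 * i) / 2 = i := by omega
    simp only [e1, e2, if_true] at this
    exact this

end Pool.Agent.S09704
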