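import Pool.Statements.S09729
import Pool.Agent.OSX39.Final

set_option autoImplicit false
open Pool Pool.MP_7f54ba_co

namespace Pool.Agent.S09729

/-- There is a constant c>0 such that for all n≥1, every finite loopless digraph with dichromatic number at least c·n² contains a subdivision of the complete digraph on n vertices with arcs in both directions. -/
theorem result :
    ∃ c : ℕ, 0 < c ∧ ∀ n : ℕ, 0 < n → ∀ (V : Type) [Fintype V] (D : Digraph V),
      (∀ v, ¬ D.Adj v v) →
      (¬ ∃ col : V → Fin (c * n ^ 2 - 1),
          ∀ v, ¬ Relation.TransGen (fun a b => D.Adj a b ∧ col a = col b) v v) →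
      ∃ f : Fin n → V, Function.Injective f ∧
        ∃ (L : Fin n → Fin n → ℕ) (p : Fin n → Fin n → ℕ → V),
          (∀ i j, i ≠ j →
              p i j 0 = f i ∧ p i j (L i j + 1) = f j ∧
              (∀ t, t ≤ L i j → D.Adj (p i j t) (p i j (t + 1))) ∧
              (∀ s t, 1 ≤ s → s ≤ L i j → 1 ≤ t → t ≤ L i j → p i j s = p i j t → s = t) ∧
              (∀ t k, 1 ≤ t → t ≤ L i j → p i j t ≠ f k)) ∧
          ∀ i j k l, i ≠ j → k ≠ l → (i ≠ k ∨ j ≠ l) →
            ∀ s t, 1 ≤ s → s ≤ L i j → 1 ≤ t → t ≤ L k l → p i j s ≠ p k l t := by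
  refine ⟨5401, by norm_num, ?_⟩
  intro n hn V _ D hD hcol
  have hcard : n + Nat.card {e : Fin n × Fin n //
      (Digraph.mk (fun i j : Fin n => i ≠ j)).Adj e.1 e.2} ≤ n ^ 2 := by
    have h1 : Nat.card {e : Fin n × Fin n //
        (Digraph.mk (fun i j : Fin n => i ≠ j)).Adj e.1 e.2} + n = n * n := by
      have e1 : Nat.card {e : Fin n × Fin n //
          (Digraph.mk (fun i j : Fin n => i ≠ j)).Adj e.1 e.2} =
          ((Finset.univ : Finset (Fin n × Fin n)).filter (fun e => e.1 ≠ e.2)).card := by
        rw [Nat.card_eq_fintype_card, Fintype.card_subtype]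
      have e2 : ((Finset.univ : Finset (Fin n × Fin n)).filter (fun e => e.1 = e.2)).card = n := by
        have e3 : (Finset.univ : Finset (Fin n × Fin n)).filter (fun e => e.1 = e.2) =
            (Finset.univ : Finset (Fin n)).image (fun i => (i, i)) := by
          ext ⟨i, j⟩
          simp only [Finset.mem_filter, Finset.mem_univ, true_and, Finset.mem_image,
            Prod.mk.injEq]
          constructor
          · intro h
            exact ⟨i, rfl, h⟩
          · rintro ⟨l, h2, h3⟩
            rw [← h2, ← h3]
        rw [e3, Finset.card_image_of_injective _ (fun i j h => (Prod.mk.injEq _ _ _ _ ▸ h).1),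
          Finset.card_univ, Fintype.card_fin]
      have e4 := Finset.card_filter_add_card_filter_not (s := (Finset.univ : Finset (Fin n × Fin n)))
        (fun e : Fin n × Fin n => e.1 = e.2)
      rw [e2, Finset.card_univ, Fintype.card_prod, Fintype.card_fin] at e4
      rw [e1]
      have e5 : ((Finset.univ : Finset (Fin n × Fin n)).filter (fun e => e.1 ≠ e.2)).card =
          ((Finset.univ : Finset (Fin n × Fin n)).filter (fun e => ¬ e.1 = e.2)).card := rfl
      rw [e5]
      omega
    rw [sq]
    omega
  have hsub := Pool.Agent.OSX39.linear_main n hn (Digraph.mk (fun i j : Fin n => i ≠ j))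
    (fun i h => h rfl) V D hD (by
      rintro ⟨col, hc⟩
      apply hcol
      have hle : 5400 * (n + Nat.card {e : Fin n × Fin n //
          (Digraph.mk (fun i j : Fin n => i ≠ j)).Adj e.1 e.2}) ≤ 5401 * n ^ 2 - 1 := by
        have h1 : 1 ≤ n ^ 2 := Nat.one_le_pow _ _ hn
        omega
      refine ⟨fun v => Fin.castLE hle (col v), fun v h => hc v ?_⟩
      have key : ∀ x y, Relation.TransGen (fun a b => D.Adj a b ∧
          Fin.castLE hle (col a) = Fin.castLE hle (col b)) x y →
          Relation.TransGen (fun a b => D.Adj a b ∧ col a = col b) x y := by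
        intro x y hxy
        induction hxy with
        | single h1 => exact Relation.TransGen.single ⟨h1.1, Fin.castLE_injective hle h1.2⟩
        | tail _ h1 ih => exact Relation.TransGen.tail ih ⟨h1.1, Fin.castLE_injective hle h1.2⟩
      exact key v v h)
  exact hsub

end Pool.Agent.S09729
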