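import Pool.Statements.S09943
import Pool.Agent.Cofactor.Bip
import Pool.Agent.Cofactor.Top

set_option autoImplicit false
open Classical
open Pool Pool.MP_88774e_co

namespace Pool.Agent.S09943

open Pool.Agent.Cofactor

/-- Arithmetic: the inequality forces both sides to be large. -/
lemma arith (s m n : ℕ) (hs : 1 ≤ s) (hm : 2 ≤ m) (hn : 2 ≤ n) (hmn : s + 2 ≤ m + n)
    (h : ((s : ℤ) + 1) * ((m : ℤ) + (n : ℤ)) - (((s + 2).choose 2 : ℕ) : ℤ) ≤ (m : ℤ) * (n : ℤ)) :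
    s + 2 ≤ m ∧ s + 2 ≤ n ∧ (s + 1).choose 2 ≤ (m - s - 1) * (n - s - 1) := by
  have h2 : ∀ k : ℕ, 2 * (((k + 1).choose 2 : ℕ) : ℤ) = ((k : ℤ) + 1) * k := by
    intro k
    induction k with
    | zero => simp
    | succ k ih =>
      rw [Nat.choose_succ_succ' (k + 1) 1]
      push_cast
      simp only [Nat.choose_one_right]
      push_cast
      linarith
  have hK := h2 (s + 1)
  have hK' := h2 s
  push_cast at hK
  have hprod : (((s + 1).choose 2 : ℕ) : ℤ) ≤ ((m : ℤ) - s - 1) * ((n : ℤ) - s - 1) := by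
    nlinarith
  have hs' : (1 : ℤ) ≤ s := by exact_mod_cast hs
  have hm' : (2 : ℤ) ≤ m := by exact_mod_cast hm
  have hn' : (2 : ℤ) ≤ n := by exact_mod_cast hn
  have hmn' : (s : ℤ) + 2 ≤ m + n := by exact_mod_cast hmn
  have hpos : 0 < ((m : ℤ) - s - 1) * ((n : ℤ) - s - 1) := by nlinarith
  rcases pos_and_pos_or_neg_and_neg_of_mul_pos hpos with ⟨hA, hB⟩ | ⟨hA, hB⟩
  · refine ⟨by omega, by omega, ?_⟩
    have h3 : (((m - s - 1 : ℕ) : ℤ)) = (m : ℤ) - s - 1 := by omega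
    have h4 : (((n - s - 1 : ℕ) : ℤ)) = (n : ℤ) - s - 1 := by omega
    have h5 : (((s + 1).choose 2 : ℕ) : ℤ) ≤ (((m - s - 1) * (n - s - 1) : ℕ) : ℤ) := by
      rw [Nat.cast_mul, h3, h4]; exact hprod
    exact_mod_cast h5
  · exfalso
    set A := (m : ℤ) - s - 1 with hAdef
    set B := (n : ℤ) - s - 1 with hBdef
    have hsum : -(s : ℤ) ≤ A + B := by rw [hAdef, hBdef]; linarith
    have h6 : 4 * (A * B) ≤ (s : ℤ) ^ 2 := by nlinarith [sq_nonneg (A - B)]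
    nlinarith

/-- For s≥1, m,n≥2, m+n≥s+2: K_{m,n} has generic C_s^{s-1}-cofactor rank equal to that of the complete graph on its m+n vertices iff mn ≥ (s+1)(m+n) − C(s+2,2). -/
theorem result :
  ∀ s m n : ℕ, 1 ≤ s → 2 ≤ m → 2 ≤ n → s + 2 ≤ m + n →
  ∀ R : SimpleGraph (Fin m ⊕ Fin n) → ((Fin m ⊕ Fin n) → ℝ) → ((Fin m ⊕ Fin n) → ℝ) → ℕ,
    (∀ (G : SimpleGraph (Fin m ⊕ Fin n)) (x y : (Fin m ⊕ Fin n) → ℝ),
      R G x y = Matrix.rank (Matrix.of fun (e : (Fin m ⊕ Fin n) × (Fin m ⊕ Fin n))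
          (c : (Fin m ⊕ Fin n) × Fin (s + 1)) =>
        if G.Adj e.1 e.2 then
          (if c.1 = e.1 then
              (x e.1 - x e.2) ^ (s - (c.2 : ℕ)) * (y e.1 - y e.2) ^ (c.2 : ℕ)
           else if c.1 = e.2 then
              -((x e.1 - x e.2) ^ (s - (c.2 : ℕ)) * (y e.1 - y e.2) ^ (c.2 : ℕ))
           else 0)
        else (0 : ℝ))) →
    ((∃ x y : (Fin m ⊕ Fin n) → ℝ, ∀ x' y' : (Fin m ⊕ Fin n) → ℝ,
        R ⊤ x' y' ≤ R (completeBipartiteGraph (Fin m) (Fin n)) x y) ↔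
      (((s : ℤ) + 1) * ((m : ℤ) + (n : ℤ)) - (((s + 2).choose 2 : ℕ) : ℤ) ≤ (m : ℤ) * (n : ℤ))) := by
  intro s m n hs hm hn hmn R hR
  have hR' : ∀ (G : SimpleGraph (Fin m ⊕ Fin n)) (x y : (Fin m ⊕ Fin n) → ℝ),
      R G x y = (cmat s G x y).rank := by
    intro G x y
    rw [hR]
    congr 1
    ext e c
    simp only [cmat, Matrix.of_apply]
    congr
  have hcard : Fintype.card (Fin m ⊕ Fin n) = m + n := by simp
  constructor
  · rintro ⟨x, y, hxy⟩
    set ι : (Fin m ⊕ Fin n) → ℕ := fun p => (finSumFinEquiv p : ℕ) with hι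
    have hιinj : Function.Injective ι := by
      intro p q hpq
      exact finSumFinEquiv.injective (Fin.ext hpq)
    have h1 := rank_top_ge s ι hιinj (by
      intro k hk
      refine ⟨finSumFinEquiv.symm ⟨k, by omega⟩, ?_⟩
      simp [hι])
    have h2 := hxy (fun p => (ι p : ℝ)) (fun p => (ι p : ℝ) ^ 2)
    rw [hR', hR'] at h2
    have h3 := rank_bip_le s m n x y
    rw [hcard] at h1
    have h4 : (s + 1) * (m + n) ≤ m * n + (s + 2).choose 2 := by omega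
    have h5 : (((s + 1) * (m + n) : ℕ) : ℤ) ≤ ((m * n + (s + 2).choose 2 : ℕ) : ℤ) := by
      exact_mod_cast h4
    push_cast at h5
    linarith
  · intro h
    obtain ⟨hm', hn', hc⟩ := arith s m n hs hm hn hmn h
    obtain ⟨x, y, hxy⟩ := rank_bip_ge s m n hm' hn' hc
    refine ⟨x, y, ?_⟩
    intro x' y'
    rw [hR', hR']
    have h1 := rank_top_le s (by rw [hcard]; omega) x' y'
    rw [hcard] at h1
    omega

end Pool.Agent.S09943
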