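import Pool.Statements.S10678
import Pool.Agent.Larman.Final

set_option autoImplicit false
open Pool Pool.MP_a9ba8c_co

namespace Pool.Agent.S10678

/-- The negation of the preceding statement: For all n, k, every intersecting family of k-subsets of an n-set is covered by n subfamilies, in each of which any two distinct sets share at least two elements. -/
theorem result :
    ¬ (∀ (n k : ℕ) (F : Finset (Finset (Fin n))),
      (∀ A ∈ F, A.card = k) →
      (∀ A ∈ F, ∀ B ∈ F, (A ∩ B).Nonempty) →
      ∃ G : Fin n → Finset (Finset (Fin n)),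
        (∀ i, G i ⊆ F) ∧
        (∀ i, ∀ A ∈ G i, ∀ B ∈ G i, A ≠ B → 2 ≤ (A ∩ B).card) ∧
        (∀ A ∈ F, ∃ i, A ∈ G i)) := by
  exact Pool.Larman.not_larman

end Pool.Agent.S10678
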