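import Pool.Statements.S11150
import Pool.Agent.BDLat.Grp

set_option autoImplicit false
open Pool Pool.MP_be50aa_co

namespace Pool.Agent.S11150

/-- The negation of the preceding statement: For every k there is a finite group G that is not isomorphic to the automorphism group of any finite modular lattice that order-embeds into a product of k chains (i.e. has order dimension at most k). -/
theorem result :
    ¬ (∀ k : ℕ, ∃ (G : Type) (_ : Group G), Finite G ∧
      ∀ (L : Type) [Lattice L] [IsModularLattice L] [Finite L],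
        Nonempty (L ↪o (Fin k → ℕ)) →
          ¬ ∃ φ : G ≃ (L ≃o L), ∀ a b : G, φ (a * b) = (φ b).trans (φ a)) := by
  intro H
  obtain ⟨G, hG, hfin, hno⟩ := H 14
  rcases subsingleton_or_nontrivial G with hs | hn
  · refine hno PUnit ⟨OrderEmbedding.ofMapLEIff (fun _ _ => 0) (fun a b => by simp)⟩ ?_
    refine ⟨⟨fun _ => OrderIso.refl PUnit, fun _ => 1, fun _ => Subsingleton.elim _ _,
      fun _ => ?_⟩, ?_⟩
    · ext x
    · intro a b
      ext x
  · obtain ⟨π₁, π₂, φ, hφ⟩ := Pool.Agent.BDLat.exists_iso G
    exact hno (Pool.Agent.BDLat.Lat π₁ π₂) (Pool.Agent.BDLat.exists_embedding π₁ π₂) ⟨φ, hφ⟩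

end Pool.Agent.S11150
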