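import Pool.Statements.S13000
import Pool.Agent.GT63.SeqCont

set_option autoImplicit false
open Pool Pool.MP_34ba9c_gt

namespace Pool.Agent.S13000

/-- The negation of the preceding statement: For every Tychonoff space X with base point x₀, if the Graev free topological group F(X) is an s-group (its topology is the finest group topology making some set of its null sequences converge to 1), then X is sequential. -/
theorem result :
    ¬ (∀ (X : Type) [TopologicalSpace X] [T35Space X] (x₀ : X)
    (τ : TopologicalSpace
      (FreeGroup X ⧸ Subgroup.normalClosure ({FreeGroup.of x₀} : Set (FreeGroup X)))),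
    τ = (GroupTopology.coinduced
          (fun x : X => (QuotientGroup.mk (FreeGroup.of x) :
            FreeGroup X ⧸ Subgroup.normalClosure ({FreeGroup.of x₀} : Set (FreeGroup X))))).toTopologicalSpace →
    (∃ S : Set (ℕ → FreeGroup X ⧸ Subgroup.normalClosure ({FreeGroup.of x₀} : Set (FreeGroup X))),
      (∀ u ∈ S, Filter.Tendsto u Filter.atTop (@nhds _ τ 1)) ∧
      τ = (sInf {t : GroupTopology
              (FreeGroup X ⧸ Subgroup.normalClosure ({FreeGroup.of x₀} : Set (FreeGroup X))) |
              ∀ u ∈ S, Filter.Tendsto u Filter.atTop (@nhds _ t.toTopologicalSpace 1)}).toTopologicalSpace) →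
    SequentialSpace X) := by
  intro H
  -- the index set of cardinality `ℵ₁`
  let I : Type := (Cardinal.aleph 1).ord.ToType
  have hI : ∀ i : I, (Set.Iio i).Countable := by
    intro i
    rw [Cardinal.countable_iff_lt_aleph_one]
    exact Cardinal.mk_Iio_toType_ord_lt i
  have hunc : ¬ (Set.univ : Set I).Countable := by
    rw [Cardinal.countable_iff_lt_aleph_one, Cardinal.mk_univ]
    simp [I]
  refine GT63.not_sequential hunc ?_
  set x₀ : I → Bool := fun _ => false
  refine H (I → Bool) x₀ _ rfl ?_
  set G := FreeGroup (I → Bool) ⧸
    Subgroup.normalClosure ({FreeGroup.of x₀} : Set (FreeGroup (I → Bool))) with hG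
  set ι : (I → Bool) → G := fun x => QuotientGroup.mk (FreeGroup.of x) with hι
  set T : GroupTopology G := GroupTopology.coinduced ι with hT
  refine ⟨{u | Filter.Tendsto u Filter.atTop (@nhds _ T.toTopologicalSpace 1)}, fun u hu => hu, ?_⟩
  congr 1
  refine le_antisymm ?_ ?_
  · refine le_sInf fun t ht => ?_
    refine sInf_le ?_
    show TopologicalSpace.coinduced ι _ ≤ t.toTopologicalSpace
    rw [← continuous_iff_coinduced_le]
    letI := t.toTopologicalSpace
    haveI := t.toIsTopologicalGroup
    letI : UniformSpace G := IsTopologicalGroup.rightUniformSpace G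
    apply GT63.seqContinuous_completelyRegular hI
    intro u p hu
    have h1 : @Filter.Tendsto _ _ (fun n => ι (u n)) Filter.atTop
        (@nhds _ T.toTopologicalSpace (ι p)) := by
      have hc : @Continuous _ _ _ T.toTopologicalSpace ι := GroupTopology.coinduced_continuous ι
      exact (@Continuous.tendsto _ _ _ T.toTopologicalSpace _ hc p).comp hu
    have h2 : @Filter.Tendsto _ _ (fun n => ι (u n) * (ι p)⁻¹) Filter.atTop
        (@nhds _ T.toTopologicalSpace 1) := by
      letI := T.toTopologicalSpace
      haveI := T.toIsTopologicalGroup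
      have h3 := h1.mul_const (ι p)⁻¹
      rwa [mul_inv_cancel] at h3
    have h3 : Filter.Tendsto (fun n => ι (u n) * (ι p)⁻¹) Filter.atTop (nhds 1) := ht _ h2
    have h4 := h3.mul_const (ι p)
    rw [one_mul] at h4
    refine h4.congr fun n => ?_
    simp
  · exact sInf_le fun u hu => hu

end Pool.Agent.S13000
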