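import Pool.Statements.S15135
import Pool.Agent.OntoPHP.Final2

set_option autoImplicit false
open Pool Pool.MP_a24eb1_lc

namespace Pool.Agent.S15135

/-- For each prime p and each degree bound d ≥ 2, once n and ℓ are large enough, no field of characteristic p has a degree-d polynomial calculus refutation of onto functional PHP with n+p^ℓ pigeons and n holes. -/
theorem result :
    ∀ p : ℕ, p.Prime → ∀ d : ℕ, 2 ≤ d → ∃ N : ℕ, ∀ n ℓ : ℕ, N ≤ n → N ≤ ℓ →
      ∀ (F : Type) [Field F] [CharP F p],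
        ¬ (∀ V : Submodule F (MvPolynomial (Fin (n + p ^ ℓ) × Fin n) F),
            (∀ f : MvPolynomial (Fin (n + p ^ ℓ) × Fin n) F,
              ((∃ v : Fin (n + p ^ ℓ) × Fin n,
                  f = MvPolynomial.X v ^ 2 - MvPolynomial.X v) ∨
               (∃ i : Fin (n + p ^ ℓ),
                  f = 1 - ∑ j : Fin n, MvPolynomial.X (i, j)) ∨
               (∃ i : Fin (n + p ^ ℓ), ∃ j k : Fin n, j ≠ k ∧
                  f = MvPolynomial.X (i, j) * MvPolynomial.X (i, k)) ∨
               (∃ i i' : Fin (n + p ^ ℓ), ∃ j : Fin n, i ≠ i' ∧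
                  f = MvPolynomial.X (i, j) * MvPolynomial.X (i', j)) ∨
               (∃ j : Fin n,
                  f = 1 - ∑ i : Fin (n + p ^ ℓ), MvPolynomial.X (i, j))) →
              f ∈ V) →
            (∀ f ∈ V, ∀ v : Fin (n + p ^ ℓ) × Fin n,
              (MvPolynomial.X v * f).totalDegree ≤ d → MvPolynomial.X v * f ∈ V) →
            (1 : MvPolynomial (Fin (n + p ^ ℓ) × Fin n) F) ∈ V) := by
  intro p hp d hd
  obtain ⟨N, hN⟩ := Pool.Agent.OntoPHP.main p hp d hd
  refine ⟨N, ?_⟩
  intro n ℓ hn hℓ F _ _ hall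
  obtain ⟨m, hst, h1⟩ := hN n ℓ hn hℓ F
  apply h1
  apply hall
  · intro f hf
    exact Pool.Agent.OntoPHP.Vc_mono d (Nat.zero_le m) (Submodule.subset_span hf)
  · intro f hf v hdeg
    rw [hst]
    exact Submodule.mem_sup_right (Submodule.subset_span ⟨f, hf, v, hdeg, rfl⟩)

end Pool.Agent.S15135
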