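import Pool.Statements.S16913
import Pool.Agent.RestrictedOrder.Final

set_option autoImplicit false
open Filter
open Pool Pool.MP_4f8442_nt

namespace Pool.Agent.S16913

/-- There is f: ℕ→ℕ such that whenever every large n is a sum of at most h elements of A (repetition allowed), and for some t every large n is a sum of at most t distinct elements of A, then every large n is a sum of at most f(h) distinct elements of A. -/
theorem result :
    ∃ f : ℕ → ℕ, ∀ (A : Set ℕ) (h : ℕ),
      (∀ᶠ n in atTop, ∃ s : Multiset ℕ,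
          Multiset.card s ≤ h ∧ (∀ x ∈ s, x ∈ A) ∧ s.sum = n) →
      (∃ t : ℕ, ∀ᶠ n in atTop, ∃ s : Finset ℕ,
          (↑s : Set ℕ) ⊆ A ∧ s.card ≤ t ∧ ∑ x ∈ s, x = n) →
      ∀ᶠ n in atTop, ∃ s : Finset ℕ,
          (↑s : Set ℕ) ⊆ A ∧ s.card ≤ f h ∧ ∑ x ∈ s, x = n := by
  choose f hf using Pool.Agent.RestrictedOrder.main
  exact ⟨f, fun A h => hf h A⟩

end Pool.Agent.S16913
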