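import Pool.Statements.S17635
-- import your own Pool.Agent.* helpers here
import Pool.Agent.LqLow.LFinal

set_option autoImplicit false
open Pool Pool.MP_845cb7_nt

namespace Pool.Agent.S17635

/-- For every ε>0 and all large k, each a<3^(k+1) with a not divisible by 3 has between (4/3)^((1-ε)k) and (4/3)^((1+ε)k) depth-k pruned 3x+1 preimages, i.e. N_k^- and N_k^+ are both (4/3)^(k+o(k)). -/
theorem result :
    ∀ ε : ℝ, 0 < ε → ∃ K : ℕ, ∀ k : ℕ, K ≤ k → ∀ a : ℕ, a < 3 ^ (k + 1) → a % 3 ≠ 0 →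
      ((4 : ℝ) / 3) ^ ((1 - ε) * (k : ℝ)) ≤
          ((Set.ncard {m : ℕ |
              (fun n : ℕ => if n % 2 = 0 then n / 2 else (3 * n + 1) / 2)^[k] m = a ∧
              ∀ j : ℕ, j ≤ k →
                (fun n : ℕ => if n % 2 = 0 then n / 2 else (3 * n + 1) / 2)^[j] m % 3 ≠ 0} : ℕ) : ℝ) ∧
      ((Set.ncard {m : ℕ |
              (fun n : ℕ => if n % 2 = 0 then n / 2 else (3 * n + 1) / 2)^[k] m = a ∧
              ∀ j : ℕ, j ≤ k →
                (fun n : ℕ => if n % 2 = 0 then n / 2 else (3 * n + 1) / 2)^[j] m % 3 ≠ 0} : ℕ) : ℝ) ≤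
          ((4 : ℝ) / 3) ^ ((1 + ε) * (k : ℝ)) := by
  intro ε hε
  obtain ⟨K1, hK1⟩ := Pool.Agent.LqLow.lower_half hε
  obtain ⟨K2, hK2⟩ := Pool.Agent.LqLow.cz_le_upper hε
  refine ⟨max K1 K2, fun k hk a _ ha => ?_⟩
  rw [Pool.Agent.LqLow.cz_frozen k a]
  refine ⟨hK1 k ((le_max_left _ _).trans hk) a (by omega), hK2 k ((le_max_right _ _).trans hk) a⟩

end Pool.Agent.S17635
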