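import Pool.Statements.S17945
import Pool.Agent.ArborealIndex.Orbits

set_option autoImplicit false
open Pool Pool.MP_9fb0d9_nt

namespace Pool.Agent.S17945

/-- There is a number field K and f in K[x] of degree at least 2 with 0 not periodic, such that [split field of f^n(x)-t over K(t)] / [split field of f^n over K] is unbounded in n.

The example is `K = ℚ`, `f = (x-2)^2 + 1`, the translate by `2` of `x^2 - 1` (the basilica map).
The point `0` is wandering (`0 ↦ 5 ↦ 10 ↦ 65 ↦ ⋯`) and is not postcritical (`2 ↦ 1 ↦ 2`), so all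
the extensions `L_n / K(t)` are unramified at `t = 0`.  The field `L_n` contains a `2^k`-th root
of `t - 1` with `k → ∞`; since `t - 1` takes the value `-1` at `t = 0`, this forces at least
`2^(k-1)` primes of `L_n` above `t = 0`. -/
theorem result :
    ∃ (K : Type) (_ : Field K) (_ : NumberField K) (f : Polynomial K),
      2 ≤ f.natDegree ∧
      (∀ m : ℕ, 1 ≤ m → (fun x => Polynomial.eval x f)^[m] 0 ≠ 0) ∧
      ∀ M : ℕ, ∃ n : ℕ, 1 ≤ n ∧
        M * Module.finrank K (Polynomial.SplittingField ((f.comp)^[n] Polynomial.X)) <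
          Module.finrank (RatFunc K)
            (Polynomial.SplittingField
              (Polynomial.map (algebraMap K (RatFunc K)) ((f.comp)^[n] Polynomial.X)
                - Polynomial.C (RatFunc.X : RatFunc K))) := by
  refine ⟨ℚ, inferInstance, inferInstance, Pool.Agent.ArborealIndex.fBas ℚ, ?_, ?_, ?_⟩
  · rw [Pool.Agent.ArborealIndex.fBas_natDegree]
  · intro m hm
    have hev : ∀ x : ℚ, Polynomial.eval x (Pool.Agent.ArborealIndex.fBas ℚ) = (x - 2) ^ 2 + 1 := by
      intro x
      simp [Pool.Agent.ArborealIndex.fBas]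
    obtain ⟨k, rfl⟩ : ∃ k, m = k + 1 := ⟨m - 1, by omega⟩
    rw [Function.iterate_succ_apply', hev]
    positivity
  · exact Pool.Agent.ArborealIndex.fBas_unbounded ℚ

end Pool.Agent.S17945
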