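import Pool.Statements.S18257
import Pool.Agent.Zilber.Final

/-!
# Zilber-Pink for the torus

Outline of the proof (files `Pool/Agent/Zil`, `Pool/Agent/Zilber`).
(1) It is enough to treat varieties defined over the algebraic numbers, in fact the powers of a
line (`Zil/RFin`, `CITLines`).
(2) If `X` is an atypical subvariety of `V`, coordinates which are independent on `X` are set equal
to roots of unity; this gives algebraic points `P` of `V`, outside any given hypersurface which does
not contain `X`, whose coordinates generate a group of rank `≤ n - dim V - 1` (`Zil/RCut`). So it is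
enough that such points are not dense in `V` if `V` lies in no proper torsion coset; tuples of
points remove monomials which are constant on `V` (`Zil/KND`).
(3) Otherwise take the ultralimit `P` of a dense sequence of such points. The heights of its
monomials are sorted by archimedean classes (scales), and the normalised local heights have a limit
`N`, a seminorm on `ℝ^n` whose kernel `K` has dimension `≥ dim V + 1`, because of the relations
(`Zilber/Scales`). Theorem M (`Zilber/Ind`): `dim K ≤ t`, the sum over the scales of the
transcendence degrees of the blocks, which is at most `dim V`: a contradiction. Theorem M is proved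
by induction on `n`, with a lemma of Ax type for products (`Zilber/N2C`).
(4) If no monomial has bounded height: an integer polynomial in the coordinates vanishes to high
order along one divisor (Siegel's lemma, `AAux`); the places near the divisor and the product
formula force it to vanish to high order at `P`, against the zero estimate for products (`BLow`).
(5) If there are monomials of bounded height, let `f` be the irreducible integer relation between
`d + 1` long monomials. A lower bound for the norm of `f` in terms of its degree (`DGam`: faces of
`f`, torsion points, Jensen) and the pigeonhole principle (`DAlpha`) give an integer polynomial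
which is not divisible by `f` and very small modulo `f` at all infinite places; again the product
formula against the zero estimate (`DEnd`).
-/

set_option autoImplicit false
open Pool Pool.MP_b7926e_nt

namespace Pool.Agent.S18257

/-- For every irreducible subvariety V of the complex n-torus there are finitely many proper torsion cosets of subtori such that every irreducible X in V∩T, with T a torsion coset and dim X > dim V + dim T − n, lies in one of them. -/
theorem result :
    ∀ (n : ℕ) (S : Set (MvPolynomial (Fin n) ℂ)) (V : Set (Fin n → ℂ)),
      V = {x : Fin n → ℂ | (∀ i, x i ≠ 0) ∧ ∀ p ∈ S, MvPolynomial.eval x p = 0} →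
      (⨅ x ∈ V, RingHom.ker (MvPolynomial.eval x : MvPolynomial (Fin n) ℂ →+* ℂ)).IsPrime →
      ∃ (k : ℕ) (L : Fin k → Submodule ℤ (Fin n → ℤ)) (ζ : Fin k → Fin n → ℂ),
        (∀ j, L j ≠ ⊥ ∧
          (∀ a : Fin n → ℤ, ∀ m : ℤ, m ≠ 0 → m • a ∈ L j → a ∈ L j) ∧
          ∃ m : ℕ, 0 < m ∧ ∀ i, ζ j i ^ m = 1) ∧
        ∀ (M : Submodule ℤ (Fin n → ℤ)) (η : Fin n → ℂ) (T : Set (Fin n → ℂ)),
          (∀ a : Fin n → ℤ, ∀ m : ℤ, m ≠ 0 → m • a ∈ M → a ∈ M) →
          (∃ m : ℕ, 0 < m ∧ ∀ i, η i ^ m = 1) →
          T = {y : Fin n → ℂ | (∀ i, y i ≠ 0) ∧
                ∀ a ∈ M, ∏ i, y i ^ a i = ∏ i, η i ^ a i} →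
          ∀ X : Set (Fin n → ℂ), X ⊆ V → X ⊆ T →
            (⨅ x ∈ X, RingHom.ker (MvPolynomial.eval x : MvPolynomial (Fin n) ℂ →+* ℂ)).IsPrime →
            ringKrullDim (MvPolynomial (Fin n) ℂ ⧸
                (⨅ x ∈ V, RingHom.ker (MvPolynomial.eval x : MvPolynomial (Fin n) ℂ →+* ℂ)))
              + ringKrullDim (MvPolynomial (Fin n) ℂ ⧸
                (⨅ x ∈ T, RingHom.ker (MvPolynomial.eval x : MvPolynomial (Fin n) ℂ →+* ℂ)))
              < ringKrullDim (MvPolynomial (Fin n) ℂ ⧸
                (⨅ x ∈ X, RingHom.ker (MvPolynomial.eval x : MvPolynomial (Fin n) ℂ →+* ℂ)))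
                + (n : WithBot ℕ∞) →
            ∃ j, X ⊆ {y : Fin n → ℂ | (∀ i, y i ≠ 0) ∧
                ∀ a ∈ L j, ∏ i, y i ^ a i = ∏ i, ζ j i ^ a i} :=
  Pool.Agent.Zilber.zilber

end Pool.Agent.S18257
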