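import Pool.Statements.S19125
import Pool.Agent.TSPd97.Final
import Pool.Agent.TSPd97.LowerFinal
import Pool.Agent.TSPd97.UpperFinal

set_option autoImplicit false
open MeasureTheory ProbabilityTheory Filter Topology
open Pool Pool.MP_076557_pr

namespace Pool.Agent.S19125

/-- The a.s. limit β_d of (optimal TSP tour length through n i.i.d. uniform points in the unit d-cube)/n^((d-1)/d) equals √(d/(2πe))(πd)^(1/(2d))·[1+(2−ln2−2γ)/d+O(1/d²)] as d→∞. -/
theorem result :
    ∃ C : ℝ, ∃ D : ℕ, ∀ d : ℕ, D ≤ d → ∀ β : ℝ,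
      (∃ (Ω : Type) (mΩ : MeasurableSpace Ω) (P : Measure Ω)
          (X : ℕ → Ω → EuclideanSpace ℝ (Fin d)),
          IsProbabilityMeasure P ∧ (∀ i, Measurable (X i)) ∧ iIndepFun X P ∧
          (∀ i, P.map (X i) =
            (volume : Measure (EuclideanSpace ℝ (Fin d))).restrict
              {x | ∀ j, x j ∈ Set.Icc (0 : ℝ) 1}) ∧
          ∀ᵐ ω ∂P, Tendsto
            (fun n : ℕ =>
              (⨅ σ : Equiv.Perm (Fin n),
                  ∑ i : Fin n, dist (X ((σ i : Fin n) : ℕ) ω)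
                    (X ((σ (finRotate n i) : Fin n) : ℕ) ω)) /
                (n : ℝ) ^ (((d : ℝ) - 1) / (d : ℝ)))
            atTop (𝓝 β)) →
      |β - Real.sqrt ((d : ℝ) / (2 * Real.pi * Real.exp 1)) *
            (Real.pi * d) ^ (1 / (2 * (d : ℝ))) *
            (1 + (2 - Real.log 2 - 2 * Real.eulerMascheroniConstant) / d)|
        ≤ C * (Real.sqrt ((d : ℝ) / (2 * Real.pi * Real.exp 1)) *
            (Real.pi * d) ^ (1 / (2 * (d : ℝ)))) / (d : ℝ) ^ 2 :=
  Pool.Agent.TSPd97.final_of_bounds Pool.Agent.TSPd97.lower_final Pool.Agent.TSPd97.upper_final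

end Pool.Agent.S19125
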